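import Pool.Agent.H933.EP.Stm
import Pool.Agent.H686.RN.Left

/-!
# The endpoint: assembly, Banach spaces
-/

set_option autoImplicit false
set_option linter.unusedSectionVars false
set_option linter.unusedVariables false

open MeasureTheory Metric
open scoped Real InnerProductSpace ENNReal

namespace Pool.Agent.H933.EP

open Pool.Agent.H933.LL

lemma Dom.mono_set {M : ℂ → ℝ} {U V : Set ℂ} (h : Dom M U) (hVU : V ⊆ U) : Dom M V := by
  intro I ρ hI hρ
  obtain ⟨C, hC⟩ := h I ρ hI hρ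
  exact ⟨C, fun g W z₀ hW h1 h2 h3 h4 => hC g W z₀ hW h1 (h2.trans hVU) h3 h4⟩

lemma Dom.mono_fun {M M' : ℂ → ℝ} {U : Set ℂ} {c : ℝ} (hc : 0 < c) (h : Dom M U)
    (hM : ∀ᵐ z ∂(volume.restrict U), 0 < M' z ∧ M' z ≤ c * M z) : Dom M' U := by
  intro I ρ hI hρ
  obtain ⟨C, hC⟩ := h I ρ hI hρ
  refine ⟨c * C, fun g W z₀ hW h1 h2 h3 h4 => ?_⟩
  have hn : ∀ z, ‖((c : ℂ)⁻¹ * g z)‖ = ‖g z‖ / c := by
    intro z
    rw [norm_mul, norm_inv, Complex.norm_real, Real.norm_of_nonneg hc.le, inv_mul_eq_div]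
  have h5 := hC (fun z => (c : ℂ)⁻¹ * g z) W z₀ hW h1 h2 (h3.const_mul _) ?_
  · simp only [hn] at h5
    rw [div_le_iff₀ hc] at h5
    linarith
  · refine (lintegral_mono_ae ?_).trans h4
    have hsub : ball z₀ ρ ⊆ U := ball_subset_closedBall.trans h2
    filter_upwards [ae_mono (Measure.restrict_mono hsub le_rfl) hM] with z hz
    refine ENNReal.ofReal_le_ofReal ?_
    obtain ⟨hz0, hz1⟩ := hz
    have hM0 : 0 < M z := by
      by_contra hneg
      push Not at hneg
      have : c * M z ≤ 0 := mul_nonpos_of_nonneg_of_nonpos hc.le hneg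
      linarith
    have h6 : ‖((c : ℂ)⁻¹ * g z)‖ / M z ≤ ‖g z‖ / M' z := by
      rw [hn, div_div]
      exact div_le_div_of_nonneg_left (norm_nonneg _) hz0 hz1
    have h7 : 0 ≤ ‖((c : ℂ)⁻¹ * g z)‖ / M z := div_nonneg (norm_nonneg _) hM0.le
    exact pow_le_pow_left₀ h7 h6 2

lemma ThinLevels.mono_set {b : ℂ → ℝ} {U V : Set ℂ} (h : ThinLevels b U) (hVU : V ⊆ U) :
    ThinLevels b V := by
  obtain ⟨r, h1, h2, h3⟩ := h
  refine ⟨r, h1, h2, fun k z ρ h4 h5 => (measure_mono ?_).trans (h3 k z ρ h4 h5)⟩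
  rintro w ⟨w1, w2, w3⟩
  exact ⟨w1, hVU w2, w3⟩

lemma thinLevels_zero (l : ℂ) (R : ℝ) (hR : 0 < R) : ThinLevels (fun _ => 0) (ball l R) := by
  refine ⟨fun k => if k = 0 then 6 * R else 0, fun k => by dsimp only; split_ifs <;> positivity, ?_, ?_⟩
  · exact summable_of_ne_finset_zero (s := {0}) fun k hk => by
      simp only [Finset.mem_singleton] at hk
      simp [hk]
  · intro k z ρ h1 h2
    rcases Nat.eq_zero_or_pos k with rfl | hk
    · simp only [if_true] at h1
      calc volume {w : ℂ | w ∈ ball z ρ ∧ w ∈ ball l R ∧ ((0 : ℕ) : ℝ) ≤ 0} ≤ volume (ball l R) :=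
            measure_mono fun w hw => hw.2.1
        _ = ENNReal.ofReal (R ^ 2 * π) := by
            rw [Complex.volume_ball, ENNReal.ofReal_mul (by positivity),
              ENNReal.ofReal_pow hR.le]
            congr 1
            rw [← ENNReal.ofReal_coe_nnreal, NNReal.coe_real_pi]
        _ ≤ ENNReal.ofReal (ρ ^ 2 / 8) := by
            refine ENNReal.ofReal_le_ofReal ?_
            have h3 := Real.pi_lt_four
            have h4 : (6 * R) ^ 2 ≤ ρ ^ 2 := pow_le_pow_left₀ (by positivity) h1 2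
            nlinarith [sq_nonneg R]
    · have : {w : ℂ | w ∈ ball z ρ ∧ w ∈ ball l R ∧ (k : ℝ) ≤ 0} = ∅ := by
        ext w
        simp only [Set.mem_setOf_eq, Set.mem_empty_iff_false, iff_false, not_and]
        intro _ _ h
        have : (0 : ℝ) < k := by exact_mod_cast hk
        linarith
      rw [this, measure_empty]
      exact bot_le

lemma int_add_const {a : ℂ → ℝ} {U : Set ℂ} {q c : ℝ} (ha : ∀ z, 0 ≤ a z) (hq : 1 < q)
    (hc : 0 ≤ c) (hU : volume U ≠ ⊤) (h : IntegrableOn (fun z => a z ^ q) U) :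
    IntegrableOn (fun z => (a z + c) ^ q) U := by
  have h1 : IntegrableOn (fun z : ℂ => 2 ^ (q - 1) * (a z ^ q + c ^ q)) U :=
    (h.add (integrableOn_const hU)).const_mul _
  have h2 : (fun z => (a z + c) ^ q) = fun z => ((a z ^ q) ^ (q⁻¹) + c) ^ q := by
    funext z
    rw [← Real.rpow_mul (ha z), mul_inv_cancel₀ (by linarith), Real.rpow_one]
  refine Integrable.mono' h1 ?_ (Filter.Eventually.of_forall fun z => ?_)
  · rw [h2]
    have h3 : AEMeasurable (fun z => a z ^ q) (volume.restrict U) := h.aestronglyMeasurable.aemeasurable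
    exact (((h3.pow_const q⁻¹).add_const c).pow_const q).aestronglyMeasurable
  · have h4 := ha z
    rw [Real.norm_of_nonneg (Real.rpow_nonneg (by linarith) _)]
    exact add_rpow_le h4 hc hq.le

lemma posLog_one_add (x : ℝ) : Real.posLog (Real.posLog (1 + x)) ≤
    Real.posLog (Real.posLog x) + Real.log 2 := by
  have h0 : Real.posLog 1 = 0 := by simp [Real.posLog]
  have h1 : Real.posLog (1 + x) ≤ Real.log 2 + Real.posLog x := by
    have := Real.posLog_add (x := 1) (y := x)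
    rw [h0] at this
    linarith
  have h2 := Real.posLog_le_posLog Real.posLog_nonneg h1
  have h3 := Real.posLog_add (x := Real.log 2) (y := Real.posLog x)
  have h4 : Real.posLog (Real.log 2) = 0 := by
    rw [Real.posLog_eq_zero_iff]
    rw [abs_of_nonneg (Real.log_nonneg (by norm_num))]
    have := Real.log_two_lt_d9
    linarith
  rw [h4] at h3
  linarith

section Ops

variable {X : Type} [NormedAddCommGroup X] [NormedSpace ℂ X] [CompleteSpace X]

/-- the integral condition with a thin part -/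
theorem domAt_of (hd : P_domar2) (T : X →L[ℂ] X) (l : ℂ) (q r : ℝ) (a b : ℂ → ℝ) (hq : 1 < q)
    (hr : 0 < r) (hσ : volume (spectrum ℂ T ∩ ball l r) = 0) (ha0 : ∀ z, 0 ≤ a z)
    (ha : IntegrableOn (fun z => a z ^ q) (ball l r)) (hb : ThinLevels b (ball l r))
    (h : ∀ᵐ z ∂(volume.restrict (ball l r)), Real.posLog (Real.posLog ‖resolvent T z‖) ≤ a z + b z) :
    DomAt T l := by
  refine ⟨r, hr, hσ, hd (fun z => 1 + ‖resolvent T z‖) (fun z => a z + Real.log 2) b (ball l r) q hq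
    isOpen_ball ?_ ?_ ?_ hb⟩
  · exact ((measurable_resolvent_norm T).const_add 1).aemeasurable
  · filter_upwards [h] with z hz
    have h1 : 0 ≤ Real.log 2 := Real.log_nonneg (by norm_num)
    refine ⟨by have := norm_nonneg (resolvent T z); linarith, by have := ha0 z; linarith, ?_⟩
    have := posLog_one_add ‖resolvent T z‖
    linarith
  · exact int_add_const ha0 hq (Real.log_nonneg (by norm_num)) measure_ball_lt_top.ne ha

theorem domAt_of_logLogAt (hd : P_domar2) {T : X →L[ℂ] X} {l : ℂ} (h : LogLogAt T l) :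
    DomAt T l := by
  obtain ⟨q, r, hq, hr, h1, h2⟩ := h
  exact domAt_of hd T l q r (fun z => Real.posLog (Real.posLog ‖resolvent T z‖)) (fun _ => 0) hq hr
    h1 (fun z => Real.posLog_nonneg) h2 (thinLevels_zero l r hr)
    (Filter.Eventually.of_forall fun z => by simp)

lemma DomAt.small {T : X →L[ℂ] X} {l : ℂ} (h : DomAt T l) (ρ : ℝ) (hρ : 0 < ρ) :
    ∃ r : ℝ, 0 < r ∧ r ≤ ρ ∧ volume (spectrum ℂ T ∩ ball l r) = 0 ∧
      Dom (fun z => 1 + ‖resolvent T z‖) (ball l r) := by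
  obtain ⟨r, hr, h1, h2⟩ := h
  refine ⟨min r ρ, lt_min hr hρ, min_le_right _ _, ?_, ?_⟩
  · exact measure_mono_null (Set.inter_subset_inter_right _ (ball_subset_ball (min_le_left _ _))) h1
  · exact h2.mono_set (ball_subset_ball (min_le_left _ _))

theorem two_points (hadm : P_adm2) (T : X →L[ℂ] X) {ι : Type} (l : ι → ℂ) (r : ι → ℝ)
    (hr : ∀ i, 0 < r i) (hl : ∀ i, l i ∈ spectrum ℂ T) (hL : ∀ i, DomAt T (l i))
    (hd : ∀ i j, i ≠ j → r i + r j < ‖l i - l j‖) :
    ∃ B : ι → (X →L[ℂ] X), (∀ i, Bicomm T (B i)) ∧ (∀ i, B i * B i ≠ 0) ∧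
      ∀ i j, i ≠ j → B i * B j = 0 := by
  choose s hs hsr hσ hI using fun i => (hL i).small (r i) (hr i)
  choose h hh using fun i => hadm X T (l i) (s i) (hs i) (hl i) (hσ i) (hI i)
  refine ⟨fun i => Op T (l i) (s i) (h i), fun i Q hQ =>
    Pool.Agent.H571.LL.p_comm X T _ _ _ (hσ i) (hh i) Q hQ, fun i =>
    Pool.Agent.H665.LL.p_sq X T _ _ _ (hs i) (hl i) (hσ i) (hh i), fun i j hij =>
    Pool.Agent.H122.LL.p_prod X T _ _ _ _ _ _ (hs i) (hs j) ?_ (hσ i) (hσ j)
      (hh i) (hh j)⟩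
  have := hd i j hij
  have := hsr i
  have := hsr j
  linarith

/-- localized operators -/
theorem localized (hadm : P_adm2) (T : X →L[ℂ] X) (l : ℂ) (hl : l ∈ spectrum ℂ T)
    (hL : DomAt T l) (ε : ℝ) (hε : 0 < ε) : ∃ B : X →L[ℂ] X, Bicomm T B ∧ B * B ≠ 0 ∧
      ∃ C : ℝ, ∀ n : ℕ, ‖(T - l • (1 : X →L[ℂ] X)) ^ n * B‖ ≤ C * ε ^ n := by
  obtain ⟨s, hs0, hsε, hσ', hI⟩ := hL.small ε hε
  obtain ⟨h, hh⟩ := hadm X T l s hs0 hl hσ' hI
  obtain ⟨C, hC⟩ := Pool.Agent.H571.LL.p_loc X T l s h hσ' hh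
  refine ⟨Op T l s h, fun Q hQ => Pool.Agent.H571.LL.p_comm X T l s h hσ' hh Q hQ,
    Pool.Agent.H665.LL.p_sq X T l s h hs0 hl hσ' hh, C, fun n => (hC n).trans ?_⟩
  have hC0 : 0 ≤ C := by
    have := hC 0
    simp only [pow_zero, mul_one] at this
    exact (norm_nonneg _).trans this
  gcongr

theorem infinite_chain (hadm : P_adm2) (T : X →L[ℂ] X)
    (hinf : {l : ℂ | l ∈ spectrum ℂ T ∧ DomAt T l}.Infinite) :
    ∃ V : ℕ → Submodule ℂ X, (∀ n, Hyper T (V n)) ∧ StrictAnti V := by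
  obtain ⟨p, -, hacc⟩ := hinf.exists_accPt_of_subset_isCompact (spectrum.isCompact T)
    (fun z hz => hz.1)
  rw [accPt_iff_nhds] at hacc
  have hp : ∀ ε : ℝ, 0 < ε → ∃ μ : ℂ, (μ ∈ spectrum ℂ T ∧ DomAt T μ) ∧ μ ≠ p ∧ ‖μ - p‖ < ε := by
    intro ε hε
    obtain ⟨y, ⟨hy1, hy2⟩, hy3⟩ := hacc (ball p ε) (ball_mem_nhds p hε)
    exact ⟨y, hy2, hy3, by rwa [mem_ball, dist_eq_norm] at hy1⟩
  choose! f hf1 hf2 hf3 using hp
  let l : ℕ → ℂ := fun n => Nat.rec (f 1) (fun _ z => f (‖z - p‖ / 4)) n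
  have hl0 : l 0 = f 1 := rfl
  have hls : ∀ n, l (n + 1) = f (‖l n - p‖ / 4) := fun n => rfl
  have hpos : ∀ n, 0 < ‖l n - p‖ := by
    intro n
    induction n with
    | zero => rw [hl0]; exact norm_pos_iff.2 (sub_ne_zero.2 (hf2 _ (by positivity)))
    | succ n ih => rw [hls]; exact norm_pos_iff.2 (sub_ne_zero.2 (hf2 _ (by positivity)))
  have hlσ : ∀ n, l n ∈ spectrum ℂ T ∧ DomAt T (l n) := by
    intro n
    cases n with
    | zero => rw [hl0]; exact hf1 _ (by positivity)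
    | succ n => rw [hls]; exact hf1 _ (by have := hpos n; positivity)
  have hdec : ∀ n, ‖l (n + 1) - p‖ < ‖l n - p‖ / 4 := by
    intro n
    rw [hls]; exact hf3 _ (by have := hpos n; positivity)
  have hdec' : ∀ m n, m < n → ‖l n - p‖ < ‖l m - p‖ / 4 := by
    intro m n hmn
    induction n with
    | zero => omega
    | succ n ih =>
      rcases Nat.lt_succ_iff_lt_or_eq.1 hmn with h | h
      · have := ih h; have := hdec n; have := hpos n; linarith
      · subst h; exact hdec m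
  have hsep : ∀ m n, m < n → ‖l m - p‖ / 4 + ‖l n - p‖ / 4 < ‖l m - l n‖ := by
    intro m n hmn
    have h1 := hdec' m n hmn
    have h2 : ‖l m - p‖ ≤ ‖l m - l n‖ + ‖l n - p‖ := by
      have : l m - p = (l m - l n) + (l n - p) := by ring
      rw [this]; exact norm_add_le _ _
    have := hpos m
    have := hpos n
    linarith
  obtain ⟨B, hB1, hB2, hB3⟩ := two_points hadm T (ι := ℕ) l
    (fun n => ‖l n - p‖ / 4) (fun n => by have := hpos n; positivity)
    (fun n => (hlσ n).1) (fun n => (hlσ n).2)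
    (fun i j hij => by
      rcases lt_or_gt_of_ne hij with h | h
      · exact hsep i j h
      · have := hsep j i h
        rw [norm_sub_rev (l i) (l j)]; linarith)
  refine ⟨fun n => ⨅ i ∈ Finset.range (n + 1), LinearMap.ker (B i : X →ₗ[ℂ] X), fun n => ⟨?_, ?_⟩, ?_⟩
  · simp only [Submodule.coe_iInf]
    exact isClosed_iInter fun i => isClosed_iInter fun _ => (hyper_ker (hB1 i)).1
  · intro Q hQ x hx
    simp only [Submodule.mem_iInf] at hx ⊢
    exact fun i hi => (hyper_ker (hB1 i)).2 Q hQ x (hx i hi)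
  · refine strictAnti_nat_of_succ_lt fun n => lt_of_le_of_ne ?_ ?_
    · intro x hx
      simp only [Submodule.mem_iInf] at hx ⊢
      exact fun i hi => hx i (by simp only [Finset.mem_range] at hi ⊢; omega)
    · intro heq
      apply hB2 (n + 1)
      ext x
      have h1 : B (n + 1) x ∈ ⨅ i ∈ Finset.range (n + 1), LinearMap.ker (B i : X →ₗ[ℂ] X) := by
        simp only [Submodule.mem_iInf]
        intro i hi
        simp only [LinearMap.mem_ker, ContinuousLinearMap.coe_coe]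
        rw [← mul_apply_eq_comp, hB3 i (n + 1) (by
          simp only [Finset.mem_range] at hi; omega)]
        rfl
      rw [← heq] at h1
      simp only [Submodule.mem_iInf] at h1
      have h2 := h1 (n + 1) (by simp)
      simpa using h2

/-- one point with the local condition and another point of the spectrum -/
theorem hyper_one (hs : P_sep2) (T : X →L[ℂ] X) (l : ℂ) (hl : l ∈ spectrum ℂ T) (hL : DomAt T l)
    (hn : (spectrum ℂ T).Nontrivial) : ∃ V : Submodule ℂ X, Hyper T V ∧ V ≠ ⊥ ∧ V ≠ ⊤ := by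
  obtain ⟨b, hb, hbl⟩ := hn.exists_ne l
  obtain ⟨r, hr, h1, h2⟩ := hL
  have hd : 0 < ‖b - l‖ := norm_pos_iff.2 (sub_ne_zero.2 hbl)
  have hm : 0 < min r ‖b - l‖ := lt_min hr hd
  obtain ⟨A, B, hA, hB, hB0, hAB, hA1⟩ := hs X T l r (min r ‖b - l‖ / 2) (by positivity)
    (by have := min_le_left r ‖b - l‖; linarith) hl h1 h2
  have hA1' : A ≠ 1 := by
    intro h
    have h3 := hA1 h hb
    rw [mem_closedBall, dist_eq_norm] at h3
    have := min_le_right r ‖b - l‖
    linarith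
  have hbi : Bicomm T (1 - A) := by
    intro Q hQ
    rw [mul_sub, sub_mul, hA Q hQ, mul_one, one_mul]
  refine ⟨LinearMap.ker ((1 - A : X →L[ℂ] X) : X →ₗ[ℂ] X), hyper_ker hbi, ?_, ?_⟩
  · intro hbot
    apply hB0
    ext x
    have : B x ∈ LinearMap.ker ((1 - A : X →L[ℂ] X) : X →ₗ[ℂ] X) := by
      simp only [LinearMap.mem_ker, ContinuousLinearMap.coe_coe]
      have h3 := congrArg (fun C : X →L[ℂ] X => C x) hAB
      have h4 : A (B x) = B x := h3
      change B x - A (B x) = 0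
      rw [h4, sub_self]
    rw [hbot, Submodule.mem_bot] at this
    simpa using this
  · intro htop
    apply hA1'
    ext x
    have : x ∈ LinearMap.ker ((1 - A : X →L[ℂ] X) : X →ₗ[ℂ] X) := by rw [htop]; trivial
    simp only [LinearMap.mem_ker, ContinuousLinearMap.coe_coe] at this
    have h5 : x - A x = 0 := this
    exact (sub_eq_zero.1 h5).symm

theorem decomposable (h1 : P_clos2) (h2 : P_split2) (T : X →L[ℂ] X) (hT : DomAll T) :
    Decomposable T := by
  obtain ⟨c1, c2, c3⟩ := h1 X T hT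
  intro U₁ U₂ hU₁ hU₂ hU
  set K0 : Set ℂ := spectrum ℂ T ∩ U₂ᶜ with hK0
  have hK0c : IsCompact K0 := (spectrum.isCompact T).inter_right hU₂.isClosed_compl
  have hK0U : K0 ⊆ U₁ := by
    rintro z ⟨-, hz⟩
    have : z ∈ U₁ ∪ U₂ := by rw [hU]; trivial
    exact this.resolve_right hz
  have hr : ∀ z ∈ K0, ∃ r : ℝ, 0 < r ∧ closedBall z (2 * r) ⊆ U₁ := by
    intro z hz
    obtain ⟨r, hr, hrU⟩ := Metric.isOpen_iff.1 hU₁ z (hK0U hz)
    refine ⟨r / 4, by positivity, subset_trans (fun w hw => ?_) hrU⟩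
    rw [mem_closedBall] at hw
    rw [mem_ball]
    linarith
  choose! r hr0 hrU using hr
  obtain ⟨t, ht1, ht2⟩ := hK0c.elim_nhds_subcover (fun z => ball z (r z))
    (fun z hz => ball_mem_nhds z (hr0 z hz))
  set F₁ : Set ℂ := ⋃ z ∈ t, closedBall z (2 * r z) with hF₁
  have hF₁c : IsClosed F₁ := by
    rw [hF₁]
    exact isClosed_biUnion_finset fun z _ => isClosed_closedBall
  have hF₁U : F₁ ⊆ U₁ := by
    rw [hF₁]
    exact Set.iUnion₂_subset fun z hz => hrU z (ht1 z hz)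
  set F₂ : Set ℂ := spectrum ℂ T ∩ (⋃ z ∈ t, ball z (r z))ᶜ with hF₂
  have hF₂c : IsClosed F₂ :=
    (spectrum.isClosed T).inter (isOpen_biUnion fun z _ => isOpen_ball).isClosed_compl
  have hF₂U : F₂ ⊆ U₂ := by
    rintro z ⟨hz1, hz2⟩
    by_contra hz3
    exact hz2 (ht2 ⟨hz1, hz3⟩)
  obtain ⟨Y₁, y1, y2, y3, y4⟩ := c1 F₁ hF₁c
  obtain ⟨Y₂, w1, w2, w3, w4⟩ := c1 F₂ hF₂c
  refine ⟨Y₁, Y₂, ⟨y2, y3, fun z hz => y4 z (fun h => hz (hF₁U h))⟩,
    ⟨w2, w3, fun z hz => w4 z (fun h => hz (hF₂U h))⟩, ?_⟩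
  rw [eq_top_iff]
  rintro x -
  have key : ∀ s : Finset ℂ, s ⊆ t → ∃ x₁ x₂ : X, x = x₁ + x₂ ∧ x₁ ∈ Y₁ ∧
      ∀ z ∈ s, LocSpec T (ball z (r z))ᶜ x₂ := by
    intro s
    induction s using Finset.induction_on with
    | empty => intro _; exact ⟨0, x, by simp, Y₁.zero_mem, fun z hz => absurd hz (by simp)⟩
    | insert z s hz ih =>
      intro hs
      obtain ⟨x₁, x₂, e1, e2, e3⟩ := ih (fun w hw => hs (Finset.mem_insert_of_mem hw))
      have hzt : z ∈ t := hs (Finset.mem_insert_self z s)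
      have hz0 : 0 < r z := hr0 z (ht1 z hzt)
      obtain ⟨A, a1, a2⟩ := h2 X T hT z (r z) (2 * r z) hz0 (by linarith)
      have hAT : A * T = T * A := (a1 T rfl).symm
      refine ⟨x₁ + A x₂, x₂ - A x₂, by rw [e1]; abel, Y₁.add_mem e2 ?_, ?_⟩
      · rw [y1]
        refine (a2 x₂).1.mono ?_
        rw [hF₁]
        exact Set.subset_biUnion_of_mem (u := fun z => closedBall z (2 * r z)) hzt
      · intro w hw
        rcases Finset.mem_insert.1 hw with rfl | hw
        · exact (a2 x₂).2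
        · obtain ⟨Y, v1, v2, v3, v4⟩ := c1 (ball w (r w))ᶜ isOpen_ball.isClosed_compl
          rw [← v1]
          exact Y.sub_mem ((v1 _).2 (e3 w hw)) (v3 A hAT _ ((v1 _).2 (e3 w hw)))
  obtain ⟨x₁, x₂, e1, e2, e3⟩ := key t (Finset.Subset.refl t)
  have hx₂ : ∀ s : Finset ℂ, s ⊆ t →
      LocSpec T (spectrum ℂ T ∩ (⋃ z ∈ s, ball z (r z))ᶜ) x₂ := by
    intro s
    induction s using Finset.induction_on with
    | empty => intro _; simpa using c3 x₂
    | insert z s hz ih =>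
      intro hs
      have h4 := ih (fun w hw => hs (Finset.mem_insert_of_mem hw))
      have h5 := e3 z (hs (Finset.mem_insert_self z s))
      have h6 := c2 _ _ x₂ ((spectrum.isClosed T).inter
        (isOpen_biUnion fun z _ => isOpen_ball).isClosed_compl) isOpen_ball.isClosed_compl h4 h5
      refine h6.mono ?_
      rintro w ⟨⟨hw1, hw2⟩, hw3⟩
      refine ⟨hw1, fun hw4 => ?_⟩
      rw [Set.mem_iUnion₂] at hw4
      obtain ⟨u, hu1, hu2⟩ := hw4
      rcases Finset.mem_insert.1 hu1 with rfl | hu1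
      · exact hw3 hu2
      · exact hw2 (Set.mem_iUnion₂.2 ⟨u, hu1, hu2⟩)
  rw [e1]
  exact Submodule.add_mem_sup e2 ((w1 _).2 (hx₂ t (Finset.Subset.refl t)))

end Ops

section Left

variable {G : Type} [NormedAddCommGroup G] [NormedSpace ℂ G] [CompleteSpace G]
variable {V : Type} [NormedAddCommGroup V] [NormedSpace ℂ V] [CompleteSpace V]

/-- the condition passes to operators similar to restrictions -/
theorem left (C : G →L[ℂ] G) (A : V →L[ℂ] V) (j : V →L[ℂ] G) (l : G →L[ℂ] V) (z₀ : ℂ) (r : ℝ)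
    (hl : ∀ v, l (j v) = v) (h : ∀ v, C (j v) = j (A v)) (hr : 0 < r)
    (hA0 : volume (spectrum ℂ A ∩ ball z₀ r) = 0) (hC : DomAt C z₀) : DomAt A z₀ := by
  obtain ⟨r', hr', h0, hI⟩ := hC
  have hest : ∀ z, z ∈ resolventSet ℂ C → z ∈ resolventSet ℂ A →
      ‖resolvent A z‖ ≤ ‖l‖ * ‖j‖ * ‖resolvent C z‖ := by
    intro z hz1 hz2
    obtain ⟨a1, a2⟩ := Pool.Agent.K4H63.RC.res_apply hz1
    obtain ⟨b1, b2⟩ := Pool.Agent.K4H63.RC.res_apply hz2
    refine ContinuousLinearMap.opNorm_le_bound _ (by positivity) fun x => ?_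
    have e1 : resolvent C z (j x) = j (resolvent A z x) := by
      have e2 : j x = z • j (resolvent A z x) - C (j (resolvent A z x)) := by
        rw [h, ← map_smul, ← map_sub, b1]
      conv_lhs => rw [e2]
      rw [a2]
    calc ‖resolvent A z x‖ = ‖l (j (resolvent A z x))‖ := by rw [hl]
      _ = ‖l (resolvent C z (j x))‖ := by rw [e1]
      _ ≤ ‖l‖ * (‖resolvent C z‖ * (‖j‖ * ‖x‖)) := by
          refine (l.le_opNorm _).trans ?_
          gcongr
          refine ((resolvent C z).le_opNorm _).trans ?_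
          gcongr
          exact j.le_opNorm x
      _ = _ := by ring
  refine ⟨min r r', lt_min hr hr', ?_, ?_⟩
  · exact measure_mono_null
      (Set.inter_subset_inter_right _ (ball_subset_ball (min_le_left _ _))) hA0
  · have hc : 0 < 1 + ‖l‖ * ‖j‖ := by positivity
    refine Dom.mono_fun hc (hI.mono_set (ball_subset_ball (min_le_right _ _))) ?_
    have hae : ∀ᵐ z ∂(volume.restrict (ball z₀ (min r r'))), z ∉ spectrum ℂ C ∧
        z ∉ spectrum ℂ A := by
      have hs : MeasurableSet (ball z₀ (min r r')) := isOpen_ball.measurableSet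
      have m1 : ∀ᵐ z ∂(volume.restrict (ball z₀ (min r r'))), z ∉ spectrum ℂ C := by
        rw [ae_restrict_iff' hs]
        have h2 := measure_eq_zero_iff_ae_notMem.mp h0
        filter_upwards [h2] with z hz hz1 hz2
        exact hz ⟨hz2, ball_subset_ball (min_le_right _ _) hz1⟩
      have m2 : ∀ᵐ z ∂(volume.restrict (ball z₀ (min r r'))), z ∉ spectrum ℂ A := by
        rw [ae_restrict_iff' hs]
        have h2 := measure_eq_zero_iff_ae_notMem.mp hA0
        filter_upwards [h2] with z hz hz1 hz2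
        exact hz ⟨hz2, ball_subset_ball (min_le_left _ _) hz1⟩
      exact m1.and m2
    filter_upwards [hae] with z hz
    have hz1 : z ∈ resolventSet ℂ C := by
      by_contra h'
      exact hz.1 h'
    have hz2 : z ∈ resolventSet ℂ A := by
      by_contra h'
      exact hz.2 h'
    have h3 := hest z hz1 hz2
    have h4 := norm_nonneg (resolvent C z)
    have h5 := norm_nonneg (resolvent A z)
    have h6 : 0 ≤ ‖l‖ * ‖j‖ := by positivity
    refine ⟨by linarith, ?_⟩
    nlinarith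

end Left

section Pert

variable {X : Type} [NormedAddCommGroup X] [NormedSpace ℂ X] [CompleteSpace X]

/-- perturbations, general weights -/
theorem pert_at (hd : P_domar2) (hlev : P_lev) (S K : X →L[ℂ] X) (E : Set ℂ) (w : ℝ → ℝ) (C C₂ : ℝ)
    (g G rad : ℂ → ℝ) (l : ℂ) (r : ℝ) (hr : 0 < r) (hE : IsClosed E) (hne : E.Nonempty)
    (hw0 : ∀ d, 0 ≤ w d) (hg0 : ∀ z, 0 ≤ g z) (hnull : volume (E ∩ ball l r) = 0)
    (hrad : Radii E l r g G rad C₂)
    (hthin : ∀ c : ℝ, 0 < c → ThinLevels (fun v => c * (1 + G v)) (ball l r))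
    (hch : Chains E (resolventSet ℂ (S + K)) (ball l r) w g) (hR : RateW S K E w C) :
    DomAt (S + K) l := by
  have hpm : Measurable Real.posLog := Real.continuous_posLog.measurable
  have hm : Measurable fun z : ℂ => Real.posLog ‖resolvent (S + K) z‖ :=
    hpm.comp (measurable_resolvent_norm (S + K))
  obtain ⟨C', hC'⟩ := chb5 X S K E w C g l r hE hne hw0 hg0 hch hR
  obtain ⟨⟨a, ha0, ha, hab⟩, h2⟩ := hlev (fun z => Real.posLog ‖resolvent (S + K) z‖) g G rad E
    (resolventSet ℂ (S + K)) C' C₂ l r hr hm (fun _ => Real.posLog_nonneg) hE hne hnull hg0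
    hrad hC'
  have h3 : (volume.restrict (ball l (r / 2))) (spectrum ℂ (S + K)) = 0 := by
    rw [ae_iff] at h2
    exact h2
  rw [Measure.restrict_apply (spectrum.isClosed (S + K)).measurableSet] at h3
  refine domAt_of hd (S + K) l 2 (r / 2) a (fun v => (2 * |C'| + 1) * (1 + G v)) (by norm_num)
    (by positivity) h3 ha0 ha
    ((hthin (2 * |C'| + 1) (by positivity)).mono_set (ball_subset_ball (by linarith))) ?_
  filter_upwards [hab] with z hz
  have h4 := hrad.nonneg z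
  refine hz.trans ?_
  have : 2 * |C'| * (1 + G z) ≤ (2 * |C'| + 1) * (1 + G z) :=
    mul_le_mul_of_nonneg_right (by linarith) (by linarith)
  linarith

/-- near `l` the set `E` lies on the graph of a Hölder function of order `α` in the coordinates `u z` -/
def OnGraph (E : Set ℂ) (l : ℂ) (α : ℝ) : Prop := ∃ (φ : ℝ → ℝ) (L R : ℝ) (u : ℂ),
  (∀ s t : ℝ, |φ s - φ t| ≤ L * |s - t| ^ α) ∧ ‖u‖ = 1 ∧ 0 < R ∧
  ∀ z ∈ E, z ∈ ball l R → (u * z).im = φ (u * z).re

/-- the chains near a graph -/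
theorem graph_pre (hg : P_gch) (E : Set ℂ) (w : ℝ → ℝ) (α : ℝ) (hα : 1 / 2 < α) (hα1 : α ≤ 1)
    (hE : IsClosed E) (hne : E.Nonempty) (l : ℂ) (hG : OnGraph E l α)
    (hw0 : ∀ d, 0 ≤ w d) (hw1 : ∀ d d' : ℝ, 0 < d → d ≤ d' → w d' ≤ w d)
    (hw2 : ∀ c : ℝ, 0 < c →
      IntegrableOn (fun t : ℝ => w (c * t ^ (1 / α)) * t ^ (1 - 1 / α)) (Set.Ioc 0 1)) :
    ∃ (E' : Set ℂ) (ρ C₂ : ℝ) (g G rad : ℂ → ℝ), IsClosed E' ∧ E ⊆ E' ∧ 0 < ρ ∧
      volume (E' ∩ ball l ρ) = 0 ∧ (∀ z, 0 ≤ g z) ∧ Radii E' l ρ g G rad C₂ ∧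
      (∀ c : ℝ, 0 < c → ThinLevels (fun v => c * (1 + G v)) (ball l ρ)) ∧
      Chains E' Set.univ (ball l ρ) w g := by
  obtain ⟨φ, L, R, u, h4, h5, h6, h7⟩ := hG
  have hφ : Continuous φ := Pool.Agent.H295.LL.GraphAux.cont (by linarith) h4
  set E' : Set ℂ := E ∪ {z : ℂ | z ∈ closedBall l (R / 2) ∧ (u * z).im = φ (u * z).re} with hE'
  have hE'c : IsClosed E' := by
    refine hE.union (isClosed_closedBall.inter ?_)
    exact isClosed_eq (Complex.continuous_im.comp (continuous_const.mul continuous_id))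
      (hφ.comp (Complex.continuous_re.comp (continuous_const.mul continuous_id)))
  have hsub : E ⊆ E' := Set.subset_union_left
  have hiff : ∀ z ∈ ball l (R / 2), z ∈ E' ↔ (u * z).im = φ (u * z).re := by
    intro z hz
    constructor
    · rintro (h | h)
      · exact h7 z h (ball_subset_ball (by linarith) hz)
      · exact h.2
    · intro h
      exact Or.inr ⟨ball_subset_closedBall hz, h⟩
  obtain ⟨ρ, C₂, g, G, rad, k1, k2, k3, k4, k5, k6⟩ := hg φ L α (R / 2) u l E' w hα hα1 h4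
    hE'c (hne.mono hsub) h5 (by positivity) hiff hw0 hw1 hw2
  exact ⟨E', ρ, C₂, g, G, rad, hE'c, hsub, k1, k2, k3, k4, k5, k6⟩

theorem graph_at (hd : P_domar2) (hlev : P_lev) (hg : P_gch) (S K : X →L[ℂ] X) (E : Set ℂ)
    (w : ℝ → ℝ) (C α : ℝ) (hα : 1 / 2 < α) (hα1 : α ≤ 1) (hE : IsClosed E) (hne : E.Nonempty)
    (hw0 : ∀ d, 0 ≤ w d) (hw1 : ∀ d d' : ℝ, 0 < d → d ≤ d' → w d' ≤ w d)
    (hw2 : ∀ c : ℝ, 0 < c →
      IntegrableOn (fun t : ℝ => w (c * t ^ (1 / α)) * t ^ (1 - 1 / α)) (Set.Ioc 0 1))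
    (hR : RateW S K E w C) (l : ℂ) (hG : OnGraph E l α)
    (hdn : (∀ b, b ∉ E → b ∈ resolventSet ℂ (S + K)) ∨ Dense (resolventSet ℂ (S + K))) :
    DomAt (S + K) l := by
  obtain ⟨E', ρ, C₂, g, G, rad, hE'c, hsub, k1, k2, k3, k4, k5, k6⟩ :=
    graph_pre hg E w α hα hα1 hE hne l hG hw0 hw1 hw2
  refine pert_at hd hlev S K E' w C C₂ g G rad l ρ k1 hE'c (hne.mono hsub) hw0 k3 k2 k4 k5 ?_
    (hR.mono hne hsub)
  rcases hdn with h | h
  · exact k6.base hsub h
  · exact k6.dense hE'c (hne.mono hsub) hw0 k3 h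

end Pert

end Pool.Agent.H933.EP
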