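import Pool.Agent.H920.RN.Rate

/-!
# Finite rank corrections do not change the rate (rank one pieces of norm at most one)
-/

set_option autoImplicit false

open MeasureTheory Metric
open scoped Real

namespace Pool.Agent.H933.EP

open Pool.Agent.H933.LL Pool.Agent.H920.RN

lemma exists_rep_small {X : Type} [NormedAddCommGroup X] [NormedSpace ℂ X]
    (R : X →L[ℂ] X) (hR : FiniteDimensional ℂ (LinearMap.range (R : X →ₗ[ℂ] X))) :
    ∃ (m : ℕ) (ψ : Fin m → (X →L[ℂ] ℂ)) (g : Fin m → X), (∀ i, ‖ψ i‖ ≤ 1 ∧ ‖g i‖ ≤ 1) ∧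
      R = ∑ i, (ψ i).smulRight (g i) := by
  obtain ⟨m, ψ, g, hRrep⟩ := exists_rep R hR
  obtain ⟨k, hk⟩ := exists_nat_gt (∑ i, (‖ψ i‖ + ‖g i‖))
  have hM0 : 0 ≤ ∑ i, (‖ψ i‖ + ‖g i‖) := Finset.sum_nonneg fun i _ => by positivity
  have hMi : ∀ i, ‖ψ i‖ ≤ k ∧ ‖g i‖ ≤ k := by
    intro i
    have : ‖ψ i‖ + ‖g i‖ ≤ ∑ i, (‖ψ i‖ + ‖g i‖) :=
      Finset.single_le_sum (f := fun i => ‖ψ i‖ + ‖g i‖) (fun i _ => by positivity)
        (Finset.mem_univ i)
    have a := norm_nonneg (ψ i)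
    have b := norm_nonneg (g i)
    constructor <;> linarith
  have hk0 : (0 : ℝ) < k := by linarith
  have hkC : (k : ℂ) ≠ 0 := by
    have : (k : ℝ) ≠ 0 := hk0.ne'
    exact_mod_cast this
  have hnk : ‖((k : ℂ)⁻¹)‖ = (k : ℝ)⁻¹ := by rw [norm_inv, Complex.norm_natCast]
  let e := (finProdFinEquiv : Fin m × Fin (k * k) ≃ Fin (m * (k * k))).symm
  refine ⟨m * (k * k), fun i => (k : ℂ)⁻¹ • ψ (e i).1, fun i => (k : ℂ)⁻¹ • g (e i).1, fun i => ?_, ?_⟩
  · rw [norm_smul, norm_smul, hnk]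
    constructor
    · rw [inv_mul_le_one₀ hk0]
      exact (hMi _).1
    · rw [inv_mul_le_one₀ hk0]
      exact (hMi _).2
  · have h1 : ∑ i : Fin (m * (k * k)), ((k : ℂ)⁻¹ • ψ (e i).1).smulRight ((k : ℂ)⁻¹ • g (e i).1)
        = ∑ p : Fin m × Fin (k * k), ((k : ℂ)⁻¹ • ψ p.1).smulRight ((k : ℂ)⁻¹ • g p.1) :=
      Equiv.sum_comp e (fun p : Fin m × Fin (k * k) =>
        ((k : ℂ)⁻¹ • ψ p.1).smulRight ((k : ℂ)⁻¹ • g p.1))
    rw [h1, Fintype.sum_prod_type]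
    simp only [Finset.sum_const, Finset.card_univ, Fintype.card_fin]
    rw [hRrep]
    refine Finset.sum_congr rfl fun i _ => ?_
    ext x
    simp only [ContinuousLinearMap.smulRight_apply, smul_apply, nsmul_eq_mul,
      ← Nat.cast_smul_eq_nsmul ℂ, smul_smul, smul_eq_mul]
    congr 1
    push_cast
    field_simp

theorem rate_fr {X : Type} [NormedAddCommGroup X] [NormedSpace ℂ X] [CompleteSpace X]
    (S K R : X →L[ℂ] X) (hR : FiniteDimensional ℂ (LinearMap.range (R : X →ₗ[ℂ] X)))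
    (E : Set ℂ) (w : ℝ → ℝ) (hw : ∀ d, 0 ≤ w d) (C : ℝ) (hC : RateW S K E w C) :
    ∃ C' : ℝ, RateW S (K + R) E w C' := by
  obtain ⟨m, ψ, g, hψ, hRrep⟩ := exists_rep_small R hR
  have hl1 : 0 ≤ Real.log ((m : ℝ) + 1) := Real.log_nonneg (by
    have : (0 : ℝ) ≤ m := Nat.cast_nonneg m
    linarith)
  refine ⟨C + Real.log ((m : ℝ) + 1), hC.res, fun d hd hd1 => ?_⟩
  obtain ⟨n, φ, f, ρ, h1, h2, h3, h4, h5, h6⟩ := hC.approx d hd hd1
  have hwd := hw d
  have e2 : Real.log ((m : ℝ) + 1) ≤ Real.log ((m : ℝ) + 1) * (1 + w d) := by nlinarith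
  refine ⟨n + m, Fin.append φ ψ, Fin.append f g, ρ, h1, ?_, ?_, ?_, h5, ?_⟩
  · have e1 : Real.log (((n + m : ℕ) : ℝ) + 1) ≤ Real.log ((n : ℝ) + 1) + Real.log ((m : ℝ) + 1) := by
      rw [← Real.log_mul (by positivity) (by positivity)]
      apply Real.log_le_log (by positivity)
      push_cast
      nlinarith [Nat.cast_nonneg (α := ℝ) n, Nat.cast_nonneg (α := ℝ) m,
        mul_nonneg (Nat.cast_nonneg (α := ℝ) n) (Nat.cast_nonneg (α := ℝ) m)]
    nlinarith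
  · nlinarith
  · intro i
    refine Fin.addCases (fun i => ?_) (fun i => ?_) i
    · rw [Fin.append_left, Fin.append_left]
      exact h4 i
    · rw [Fin.append_right, Fin.append_right]
      exact ⟨(hψ i).1.trans h1, (hψ i).2.trans h1⟩
  · rw [Fin.sum_univ_add]
    simp only [Fin.append_left, Fin.append_right]
    rw [← hRrep]
    have e : K + R - (∑ i, (φ i).smulRight (f i) + R) = K - ∑ i, (φ i).smulRight (f i) := by abel
    rw [e]
    exact h6

end Pool.Agent.H933.EP
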