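import Pool.Agent.H933.EP.Asm
import Pool.Agent.H933.RN.Fin2
import Pool.Agent.H933.EP.Rate3

/-!
# The endpoint: assembly, Hilbert spaces
-/

set_option autoImplicit false
set_option linter.unusedSectionVars false
set_option linter.unusedVariables false

open MeasureTheory Metric Polynomial
open scoped Real InnerProductSpace ENNReal NNReal

namespace Pool.Agent.H933.EP

open Pool.Agent.H933.LL Pool.Agent.W402.HI Pool.Agent.W706.HIR Pool.Agent.K4H63.RD

section A

variable {X : Type} [NormedAddCommGroup X] [NormedSpace ℂ X] [CompleteSpace X]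

/-- points off `E` -/
theorem off_at (S K : X →L[ℂ] X) (E : Set ℂ) (w : ℝ → ℝ) (C : ℝ) (hE : IsClosed E)
    (hne : E.Nonempty) (hw0 : ∀ d, 0 ≤ w d) (hw1 : ∀ d d' : ℝ, 0 < d → d ≤ d' → w d' ≤ w d)
    (hR : RateW S K E w C) (l : ℂ) (hl : l ∉ E)
    (hd : Dense (resolventSet ℂ (S + K))) : LogLogAt (S + K) l := by
  set δ := infDist l E with hδ
  have hδ0 : 0 < δ := (hE.notMem_iff_infDist_pos hne).1 hl
  have hfar : ∀ z ∈ ball l (δ / 16), 15 / 16 * δ ≤ infDist z E := by
    intro z hz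
    rw [mem_ball, dist_comm] at hz
    have : infDist l E ≤ infDist z E + dist l z := infDist_le_infDist_add_dist
    linarith
  obtain ⟨b, hb1, hb2⟩ := hd.exists_dist_lt l (show 0 < δ / 16 by positivity)
  have hbb : b ∈ ball l (δ / 16) := by rw [mem_ball, dist_comm]; exact hb2
  have hnull : E ∩ ball l (δ / 16) = ∅ := by
    ext z
    simp only [Set.mem_inter_iff, Set.mem_empty_iff_false, iff_false, not_and]
    intro hz hz2
    have := hfar z hz2
    rw [infDist_zero_of_mem hz] at this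
    linarith
  set m : ℝ := min 1 (δ / 4) with hm
  have hm0 : 0 < m := lt_min one_pos (by positivity)
  have hcost : ∀ z ∈ ball l (δ / 16), 1 + w (min 1 (infDist z E / 2)) ≤ 1 + w m := by
    intro z hz
    have h1 : m ≤ min 1 (infDist z E / 2) := by
      refine le_min (min_le_left _ _) ((min_le_right _ _).trans ?_)
      have := hfar z hz; linarith
    have := hw1 m _ hm0 h1
    linarith
  refine LL.pert_at chb5 whit5 S K E w C (fun _ => 0) l (δ / 16) 2 (by norm_num) (by positivity) hE hne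
    hw0 (fun _ => le_rfl) measurable_const (by rw [hnull]; simp) ?_ ?_ ?_ hR
  · simp
  · have hb : ∀ z ∈ ball l (δ / 16), ‖(Real.posLog (infDist z E)⁻¹) ^ (2 : ℝ)‖
        ≤ (Real.posLog (15 / 16 * δ)⁻¹) ^ (2 : ℝ) := by
      intro z hz
      have h1 := hfar z hz
      rw [Real.norm_of_nonneg (Real.rpow_nonneg Real.posLog_nonneg _)]
      refine Real.rpow_le_rpow Real.posLog_nonneg
        (Real.posLog_le_posLog (inv_nonneg.2 infDist_nonneg) ?_) (by norm_num)
      exact inv_anti₀ (by positivity) h1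
    refine IntegrableOn.of_bound measure_ball_lt_top ?_ _
      (ae_restrict_of_forall_mem measurableSet_ball hb)
    have hpm : Measurable Real.posLog := Real.continuous_posLog.measurable
    exact ((hpm.comp (measurable_infDist.inv)).pow_const _).aestronglyMeasurable
  · have hwm := hw0 m
    refine ⟨{b}, 2 * (1 + w m), fun b' hb' => ?_, fun z hz hzE => ?_⟩
    · rw [Finset.mem_singleton] at hb'
      subst hb'
      refine ⟨hb1, fun hbE => ?_⟩
      have : b' ∈ E ∩ ball l (δ / 16) := ⟨hbE, hbb⟩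
      rw [hnull] at this
      exact this
    · refine ⟨1, fun j => if j = 0 then b else z, ?_, by simp, by simp, fun j hj => ?_⟩
      · rw [Finset.sum_range_succ, Finset.sum_range_one]
        simp only [if_true, one_ne_zero, if_false]
        have h1 := hcost b hbb
        have h2 := hcost z hz
        linarith
      · obtain rfl : j = 0 := by omega
        simp only [zero_add, one_ne_zero, if_false, if_true]
        have h1 := hfar b hbb
        rw [mem_ball] at hz hbb
        have h2 : ‖z - b‖ ≤ dist z l + dist b l := by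
          rw [← dist_eq_norm]
          exact (dist_triangle z l b).trans (by rw [dist_comm l b])
        linarith

end A

section H

variable {H : Type} [NormedAddCommGroup H] [InnerProductSpace ℂ H] [CompleteSpace H]

theorem scalar_or_hyper (hs : P_sep2) (N K : H →L[ℂ] H) (hN : IsStarNormal N)
    (hK : IsCompactOperator K) (l : ℂ) (hl : l ∈ spectrum ℂ (N + K)) (hL : DomAt (N + K) l) :
    (∃ c : ℂ, N + K = c • (1 : H →L[ℂ] H)) ∨
      ∃ V : Submodule ℂ H, LL.Hyper (N + K) V ∧ V ≠ ⊥ ∧ V ≠ ⊤ := by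
  by_cases hn : (spectrum ℂ (N + K)).Nontrivial
  · exact Or.inr (hyper_one hs (N + K) l hl hL hn)
  · by_cases hsc : ∃ c : ℂ, N + K = c • (1 : H →L[ℂ] H)
    · exact Or.inl hsc
    · right
      have heq : spectrum ℂ (N + K) = {l} :=
        (Set.not_nontrivial_iff.1 hn).eq_singleton_of_mem hl
      have h1 := Pool.Agent.W806.HI.main H N K l hN hK heq
      have h2 : IsCompactOperator (N + K - l • (1 : H →L[ℂ] H) : H →L[ℂ] H) := by
        have h3 : (N + K - l • (1 : H →L[ℂ] H) : H →L[ℂ] H)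
            = (N - l • (1 : H →L[ℂ] H)) + K := by abel
        rw [h3]
        exact h1.add hK
      have h4 : ¬ Pool.Agent.W402.HI.IsScalar (N + K - l • (1 : H →L[ℂ] H)) := by
        rintro ⟨c, hc⟩
        apply hsc
        refine ⟨c + l, ?_⟩
        rw [sub_eq_iff_eq_add] at hc
        rw [hc, add_smul]
      obtain ⟨V, v1, v2, v3, v4⟩ := Pool.Agent.W577.HI.G1.main H _ h2 h4
      refine ⟨V, ⟨v1, fun Q hQ => v4 Q ?_⟩, v2, v3⟩
      rw [mul_sub, sub_mul, hQ, mul_smul_comm, smul_mul_assoc, mul_one, one_mul]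

/-- the spectrum of `N` is accessible for `K` at `l`: the two conditions -/
def Fav (E : Set ℂ) (K : H →L[ℂ] H) (l : ℂ) : Prop :=
  (∃ η : ℝ, 0 < η ∧ LogSchatten K η ∧ AccAt E l η) ∨
  ∃ α : ℝ, 1 / 2 < α ∧ α ≤ 1 ∧ MacaevClass K (2 * α - 1) ∧ OnGraph E l α

lemma Fav.compact (hrM : P_rateM) {E : Set ℂ} {K : H →L[ℂ] H} {l : ℂ} (h : Fav E K l) :
    IsCompactOperator K := by
  rcases h with ⟨η, h1, h2, -⟩ | ⟨α, h1, h2, h3, -⟩
  · exact Pool.Agent.H21.LL.p_nor5.2.2 H K η h1 h2
  · exact hrM.2 H K (2 * α - 1) (by linarith) h3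

/-- every finite rank correction: base points and conclusion -/
theorem fav_at (hd : P_domar2) (hlev : P_lev) (hg : P_gch) (hrM : P_rateM) (N K : H →L[ℂ] H)
    (hN : IsStarNormal N) (hne : (spectrum ℂ N).Nonempty) (l : ℂ) (hF : Fav (spectrum ℂ N) K l)
    (hdn : (∀ b, b ∉ spectrum ℂ N → b ∈ resolventSet ℂ (N + K)) ∨
      Dense (resolventSet ℂ (N + K))) : DomAt (N + K) l := by
  have hE : IsClosed (spectrum ℂ N) := spectrum.isClosed N
  rcases hF with ⟨η, hη, hK, hG⟩ | ⟨α, hα, hα1, hK, hG⟩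
  · obtain ⟨C, hR⟩ := Pool.Agent.H21.LL.p_nor5.1 H N K (spectrum ℂ N) η hN hE hne le_rfl hη hK 1
      one_pos
    rw [Complex.ofReal_one, one_smul] at hR
    exact domAt_of_logLogAt hd (acc_at N K _ η C hη hne hR l hG hdn)
  · obtain ⟨w, C, w0, w1, w2, hR⟩ := hrM.1 H N K (spectrum ℂ N) α hN hE hne le_rfl hα hα1 hK 1
      one_pos
    rw [Complex.ofReal_one, one_smul] at hR
    exact graph_at hd hlev hg N K _ w C α hα hα1 hE hne w0 w1 w2 hR l hG hdn

/-- no eigenvalues off the spectrum of `N`: no spectrum there -/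
theorem res_of_no_eig' (hrM : P_rateM) (N K : H →L[ℂ] H) (hN : IsStarNormal N)
    (hK : (∃ η : ℝ, 0 < η ∧ LogSchatten K η) ∨ ∃ α : ℝ, 1 / 2 < α ∧ α ≤ 1 ∧
      MacaevClass K (2 * α - 1)) (hne : (spectrum ℂ N).Nonempty)
    (hno : ∀ v : ℂ, v ∉ spectrum ℂ N → ∀ x : H, (N + K) x = v • x → x = 0) :
    ∀ v : ℂ, v ∉ spectrum ℂ N → v ∈ resolventSet ℂ (N + K) := by
  have hE : IsClosed (spectrum ℂ N) := spectrum.isClosed N
  rcases hK with ⟨η, hη, hK⟩ | ⟨α, hα, hα1, hK⟩
  · obtain ⟨C, hR⟩ := Pool.Agent.H21.LL.p_nor5.1 H N K (spectrum ℂ N) η hN hE hne le_rfl hη hK 1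
      one_pos
    rw [Complex.ofReal_one, one_smul] at hR
    exact res_of_no_eig N K _ _ C hE hne hR hno
  · obtain ⟨w, C, w0, w1, w2, hR⟩ := hrM.1 H N K (spectrum ℂ N) α hN hE hne le_rfl hα hα1 hK 1
      one_pos
    rw [Complex.ofReal_one, one_smul] at hR
    exact res_of_no_eig N K _ w C hE hne hR hno

lemma Fav.cls {E : Set ℂ} {K : H →L[ℂ] H} {l : ℂ} (h : Fav E K l) :
    (∃ η : ℝ, 0 < η ∧ LogSchatten K η) ∨ ∃ α : ℝ, 1 / 2 < α ∧ α ≤ 1 ∧
      MacaevClass K (2 * α - 1) := by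
  rcases h with ⟨η, h1, h2, -⟩ | ⟨α, h1, h2, h3, -⟩
  · exact Or.inl ⟨η, h1, h2⟩
  · exact Or.inr ⟨α, h1, h2, h3⟩

/-- individual perturbations -/
theorem individual (hd : P_domar2) (hlev : P_lev) (hg : P_gch) (hrM : P_rateM) (hs : P_sep2)
    (N K : H →L[ℂ] H) (hN : IsStarNormal N) (l : ℂ) (hl : l ∈ spectrum ℂ (N + K))
    (hF : Fav (spectrum ℂ N) K l) :
    (∃ c : ℂ, N + K = c • (1 : H →L[ℂ] H)) ∨
      ∃ V : Submodule ℂ H, LL.Hyper (N + K) V ∧ V ≠ ⊥ ∧ V ≠ ⊤ := by
  have hKc : IsCompactOperator K := hF.compact hrM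
  have hH : Nontrivial H := by
    by_contra hH
    rw [not_nontrivial_iff_subsingleton] at hH
    exact absurd (spectrum.of_subsingleton (R := ℂ) (N + K) ▸ hl) (Set.notMem_empty l)
  have hne : (spectrum ℂ N).Nonempty := spectrum.nonempty N
  by_cases hsc : ∃ c : ℂ, N + K = c • (1 : H →L[ℂ] H)
  · exact Or.inl hsc
  by_cases hev : ∀ v : ℂ, v ∉ spectrum ℂ N → ∀ x : H, (N + K) x = v • x → x = 0
  · have hres := res_of_no_eig' hrM N K hN hF.cls hne hev
    exact scalar_or_hyper hs N K hN hKc l hl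
      (fav_at hd hlev hg hrM N K hN hne l hF (Or.inl hres))
  · push Not at hev
    obtain ⟨v, hv, x, hx, hx0⟩ := hev
    exact Or.inr (hyper_of_eig' (N + K) v x hx0 hx hsc)

/-- decomposability from the points of the spectrum -/
theorem dec_at (hgl : P_glue2) (h1 : P_clos2) (h2 : P_split2) {X : Type} [NormedAddCommGroup X]
    [NormedSpace ℂ X] [CompleteSpace X] (T : X →L[ℂ] X) (h : ∀ l ∈ spectrum ℂ T, DomAt T l) :
    Decomposable T :=
  decomposable h1 h2 T (hgl X T h)

theorem individual_dec (hd : P_domar2) (hlev : P_lev) (hg : P_gch) (hrM : P_rateM)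
    (hgl : P_glue2) (h1 : P_clos2) (h2 : P_split2) (N K : H →L[ℂ] H)
    (hN : IsStarNormal N) (hF : ∀ l ∈ spectrum ℂ N, Fav (spectrum ℂ N) K l)
    (hint : interior (spectrum ℂ (N + K)) = ∅) : Decomposable (N + K) := by
  have hE : IsClosed (spectrum ℂ N) := spectrum.isClosed N
  have hdense : Dense (resolventSet ℂ (N + K)) := by
    have h1 : resolventSet ℂ (N + K) = (spectrum ℂ (N + K))ᶜ := by
      rw [spectrum, compl_compl]
    rw [h1]
    exact interior_eq_empty_iff_dense_compl.1 hint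
  rcases subsingleton_or_nontrivial H with hs | hs
  · refine dec_at hgl h1 h2 (N + K) fun l hl => ?_
    exact absurd (spectrum.of_subsingleton (R := ℂ) (N + K) ▸ hl) (Set.notMem_empty l)
  have hne : (spectrum ℂ N).Nonempty := spectrum.nonempty N
  refine dec_at hgl h1 h2 (N + K) fun l _ => ?_
  by_cases hl : l ∈ spectrum ℂ N
  · exact fav_at hd hlev hg hrM N K hN hne l (hF l hl) (Or.inr hdense)
  · obtain ⟨l₀, hl₀⟩ := hne
    rcases (hF l₀ hl₀).cls with ⟨η, hη, hK⟩ | ⟨α, hα, hα1, hK⟩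
    · obtain ⟨C, hR⟩ := Pool.Agent.H21.LL.p_nor5.1 H N K (spectrum ℂ N) η hN hE ⟨l₀, hl₀⟩ le_rfl hη
        hK 1 one_pos
      rw [Complex.ofReal_one, one_smul] at hR
      exact domAt_of_logLogAt hd (LL.off_at chb5 whit5 N K _ η C hη hE ⟨l₀, hl₀⟩ hR l hl hdense)
    · obtain ⟨w, C, w0, w1, w2, hR⟩ := hrM.1 H N K (spectrum ℂ N) α hN hE ⟨l₀, hl₀⟩ le_rfl hα hα1
        hK 1 one_pos
      rw [Complex.ofReal_one, one_smul] at hR
      exact domAt_of_logLogAt hd (off_at N K _ w C hE ⟨l₀, hl₀⟩ w0 w1 hR l hl hdense)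

end H

section B

variable {X : Type} [NormedAddCommGroup X] [NormedSpace ℂ X] [CompleteSpace X]

theorem hasHyp_one (hs : P_sep2) (T : X →L[ℂ] X) (l : ℂ) (hl : l ∈ spectrum ℂ T)
    (hL : DomAt T l) (hn : (spectrum ℂ T).Nontrivial) : HasHyp T := by
  obtain ⟨V, ⟨h1, h2⟩, h3, h4⟩ := hyper_one hs T l hl hL hn
  exact ⟨V, h1, h3, h4, h2⟩

/-- a spectrum of at least two points: a good point or a totally disconnected spectrum -/
theorem hasHyp_of (hs : P_sep2) (hr : RN.P_riesz) (T : X →L[ℂ] X) (hn : (spectrum ℂ T).Nontrivial)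
    (h : (∃ l ∈ spectrum ℂ T, DomAt T l) ∨ IsTotallyDisconnected (spectrum ℂ T)) :
    HasHyp T := by
  rcases h with ⟨l, hl, hL⟩ | h
  · exact hasHyp_one hs T l hl hL hn
  · refine hr X T fun hc => ?_
    exact Set.not_subsingleton_iff.2 hn (h _ subset_rfl hc)

end B

section G

variable {G : Type} [NormedAddCommGroup G] [InnerProductSpace ℂ G] [CompleteSpace G]
variable {V : Type} [NormedAddCommGroup V] [InnerProductSpace ℂ V] [CompleteSpace V]
variable {H : Type} [NormedAddCommGroup H] [InnerProductSpace ℂ H] [CompleteSpace H]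

/-- a good point of the spectrum of a restriction -/
theorem left_dom (hd : P_domar2) (hlev : P_lev) (hg : P_gch) (hrM : P_rateM)
    (hf : RN.P_fin) {N K : G →L[ℂ] G} (hN : IsStarNormal N)
    {A : V →L[ℂ] V} {j : V →L[ℂ] G} {l : G →L[ℂ] V}
    (hl : ∀ v, l (j v) = v) (h : ∀ v, (N + K) (j v) = j (A v))
    (hsub : spectrum ℂ A ⊆ spectrum ℂ N) {z : ℂ} (hz : z ∈ spectrum ℂ A)
    (hF : Fav (spectrum ℂ N) K z) : DomAt A z := by
  have hKc : IsCompactOperator K := hF.compact hrM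
  have hE : IsClosed (spectrum ℂ N) := spectrum.isClosed N
  have hne : (spectrum ℂ N).Nonempty := ⟨z, hsub hz⟩
  rcases hF with ⟨η, hη, hK, hG⟩ | ⟨α, hα, hα1, hK, hG⟩
  · obtain ⟨E', ρ, q, g, hE'c, hsubE, k1, k2, k3, k4, k5, k6, k7, B, C, hB, hch⟩ := hG
    have hne' : E'.Nonempty := hne.mono hsubE
    have hBN : ∀ b ∈ B, b ∈ resolventSet ℂ N := by
      intro b hb
      by_contra h'
      exact (hB b hb).2 (hsubE h')
    have hBA : ∀ b ∈ B, b ∈ resolventSet ℂ A := by
      intro b hb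
      by_contra h'
      exact (hB b hb).2 (hsubE (hsub h'))
    obtain ⟨R, hR1, hR2, hR3⟩ := hf G V N K A j l B hKc hl h fun b hb => ⟨hBN b hb, hBA b hb⟩
    obtain ⟨C₀, hC₀⟩ := Pool.Agent.H21.LL.p_nor5.1 G N K (spectrum ℂ N) η hN hE hne le_rfl hη hK 1
      one_pos
    rw [Complex.ofReal_one, one_smul] at hC₀
    obtain ⟨C', hC'⟩ := rate_fr N K R hR1 (spectrum ℂ N) (pw η) (pw_nonneg η) C₀
      (hC₀.congr (pw_eq η))
    have hLL : LogLogAt (N + (K + R)) z := by
      refine LL.pert_at chb5 whit5 N (K + R) E' (pw η) C' g z ρ q k2 k1 hE'c hne' (pw_nonneg η) k5 k4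
        k3 k6 k7 ⟨B, C, fun b hb => ⟨hR3 b hb, (hB b hb).2⟩, hch⟩ (hC'.mono hne hsubE)
    refine left (N + (K + R)) A j l z ρ hl (fun v => ?_) k1 ?_ (domAt_of_logLogAt hd hLL)
    · rw [← h]
      change N (j v) + (K (j v) + R (j v)) = N (j v) + K (j v)
      rw [hR2, add_zero]
    · exact measure_mono_null (Set.inter_subset_inter_left _ (hsub.trans hsubE)) k3
  · obtain ⟨w, C₀, w0, w1, w2, hR₀⟩ := hrM.1 G N K (spectrum ℂ N) α hN hE hne le_rfl hα hα1 hK 1
      one_pos
    rw [Complex.ofReal_one, one_smul] at hR₀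
    obtain ⟨E', ρ, C₂, g, G', rad, hE'c, hsubE, k1, k2, k3, k4, k5, B, C, hB, hch⟩ :=
      graph_pre hg (spectrum ℂ N) w α hα hα1 hE hne z hG w0 w1 w2
    have hne' : E'.Nonempty := hne.mono hsubE
    have hBN : ∀ b ∈ B, b ∈ resolventSet ℂ N := by
      intro b hb
      by_contra h'
      exact (hB b hb).2 (hsubE h')
    have hBA : ∀ b ∈ B, b ∈ resolventSet ℂ A := by
      intro b hb
      by_contra h'
      exact (hB b hb).2 (hsubE (hsub h'))
    obtain ⟨R, hR1, hR2, hR3⟩ := hf G V N K A j l B hKc hl h fun b hb => ⟨hBN b hb, hBA b hb⟩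
    obtain ⟨C', hC'⟩ := rate_fr N K R hR1 (spectrum ℂ N) w w0 C₀ hR₀
    have hLL : DomAt (N + (K + R)) z :=
      pert_at hd hlev N (K + R) E' w C' C₂ g G' rad z ρ k1 hE'c hne' w0 k3 k2 k4 k5
        ⟨B, C, fun b hb => ⟨hR3 b hb, (hB b hb).2⟩, hch⟩ (hC'.mono hne hsubE)
    refine left (N + (K + R)) A j l z ρ hl (fun v => ?_) k1 ?_ hLL
    · rw [← h]
      change N (j v) + (K (j v) + R (j v)) = N (j v) + K (j v)
      rw [hR2, add_zero]
    · exact measure_mono_null (Set.inter_subset_inter_left _ (hsub.trans hsubE)) k2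

/-- operators similar to restrictions of `N + K` -/
theorem acc_left (hd : P_domar2) (hlev : P_lev) (hg : P_gch) (hrM : P_rateM) (hs : P_sep2)
    (hr : RN.P_riesz) (hf : RN.P_fin) {N K : G →L[ℂ] G} (hN : IsStarNormal N)
    (hKc : IsCompactOperator K)
    (hbad : IsTotallyDisconnected {z | z ∈ spectrum ℂ N ∧ ¬ Fav (spectrum ℂ N) K z})
    {A : V →L[ℂ] V} {j : V →L[ℂ] G} {l : G →L[ℂ] V}
    (hl : ∀ v, l (j v) = v) (h : ∀ v, (N + K) (j v) = j (A v)) : IsScalar A ∨ HasHyp A := by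
  by_cases hout : ∃ z, z ∈ resolventSet ℂ N ∧ z ∈ spectrum ℂ A
  · obtain ⟨z, hz1, hz2⟩ := hout
    exact outside_left hKc hl h hz1 hz2
  have hsub := RN.sub_of_not_out hout
  by_cases hnt : (spectrum ℂ A).Nontrivial
  swap
  · exact single_left hN hKc hl h hnt
  right
  refine hasHyp_of hs hr A hnt ?_
  by_cases hacc : ∃ z ∈ spectrum ℂ A, Fav (spectrum ℂ N) K z
  swap
  · right
    push Not at hacc
    intro S hS hc
    exact hbad S (fun z hz => ⟨hsub (hS hz), hacc z (hS hz)⟩) hc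
  left
  obtain ⟨z, hz, hF⟩ := hacc
  exact ⟨z, hz, left_dom hd hlev hg hrM hf hN hl h hsub hz hF⟩

/-- the same with one favourable point of the spectrum of `A` -/
theorem acc_left_pt (hd : P_domar2) (hlev : P_lev) (hg : P_gch) (hrM : P_rateM) (hs : P_sep2)
    (hf : RN.P_fin) {N K : G →L[ℂ] G} (hN : IsStarNormal N)
    {A : V →L[ℂ] V} {j : V →L[ℂ] G} {l : G →L[ℂ] V}
    (hl : ∀ v, l (j v) = v) (h : ∀ v, (N + K) (j v) = j (A v)) {z : ℂ} (hz : z ∈ spectrum ℂ A)
    (hF : Fav (spectrum ℂ N) K z) : IsScalar A ∨ HasHyp A := by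
  have hKc : IsCompactOperator K := hF.compact hrM
  by_cases hout : ∃ z, z ∈ resolventSet ℂ N ∧ z ∈ spectrum ℂ A
  · obtain ⟨z, hz1, hz2⟩ := hout
    exact outside_left hKc hl h hz1 hz2
  have hsub := RN.sub_of_not_out hout
  by_cases hnt : (spectrum ℂ A).Nontrivial
  swap
  · exact single_left hN hKc hl h hnt
  exact Or.inr (hasHyp_one hs A z hz (left_dom hd hlev hg hrM hf hN hl h hsub hz hF) hnt)

/-- reductive models of `N + K` -/
theorem individual_red (hd : P_domar2) (hlev : P_lev) (hg : P_gch) (hrM : P_rateM) (hs : P_sep2)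
    (hr : RN.P_riesz) (hf : RN.P_fin) (hsc : RN.P_sc) {N K : G →L[ℂ] G} (hN : IsStarNormal N)
    (hKc : IsCompactOperator K)
    (hbad : IsTotallyDisconnected {z | z ∈ spectrum ℂ N ∧ ¬ Fav (spectrum ℂ N) K z}) :
    RN.GoodOp (N + K) (volume (spectrum ℂ N) = 0) := by
  intro H _ _ _ T q J hred hq hJ hD hn
  exact RN.both hsc hN hKc (fun V _ _ _ A j l hl hj =>
    acc_left hd hlev hg hrM hs hr hf hN hKc hbad hl hj) hred hq hJ hD hn

/-- the general criterion -/
theorem criterion (hs : P_sep2) (hr : RN.P_riesz) (hsc : RN.P_sc)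
    (hre : RN.P_restr)
    {T : H →L[ℂ] H} (hred : Reductive T) {q : ℂ[X]} (hq : 0 < q.natDegree)
    (hbad : IsTotallyDisconnected {z | z ∈ spectrum ℂ (aeval T q) ∧ ¬ DomAt (aeval T q) z})
    (h : IsCompactOperator (sc T) ∨ ∃ (G : Type) (_ : NormedAddCommGroup G)
      (_ : InnerProductSpace ℂ G) (_ : CompleteSpace G) (N : G →L[ℂ] G) (J : H →L[ℂ] G),
      IsStarNormal N ∧ volume (spectrum ℂ N) = 0 ∧ (∃ c : ℝ, 0 < c ∧ ∀ x, c * ‖x‖ ≤ ‖J x‖) ∧
      IsCompactOperator (N.comp J - J.comp (aeval T q) : H →L[ℂ] G)) : IsStarNormal T := by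
  have key : ∀ (W : Submodule ℂ H) (hW : Pool.Agent.W706.HIR.Hyper T W),
      (spectrum ℂ (T.restrict hW.inv)).Nontrivial →
      HasHyp (aeval (T.restrict hW.inv) q) ∨ HasHyp (T.restrict hW.inv) := by
    intro W hW hnt
    have : CompleteSpace W := hW.1.completeSpace_coe
    obtain ⟨h1, -⟩ := hre H T q hred W hW
    have h2 : ∀ z : ℂ, DomAt (aeval T q) z → DomAt (aeval (T.restrict hW.inv) q) z := by
      intro z hz
      obtain ⟨m1, m2⟩ := RN.model_restrict (C := aeval T q) (T := T) (q := q)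
        (J := ContinuousLinearMap.id ℂ H) (L := ContinuousLinearMap.id ℂ H) (fun v => rfl)
        (fun v => rfl) W hW.inv
      obtain ⟨r, hr0, hr1, hr2⟩ := hz
      exact left (aeval T q) _ _ _ z r m1 m2 hr0
        (measure_mono_null (Set.inter_subset_inter_left _ h1) hr1) ⟨r, hr0, hr1, hr2⟩
    set A := aeval (T.restrict hW.inv) q with hA
    by_cases hnA : (spectrum ℂ A).Nontrivial
    · left
      refine hasHyp_of hs hr A hnA ?_
      by_cases hacc : ∃ z ∈ spectrum ℂ A, DomAt (aeval T q) z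
      · obtain ⟨z, hz, hz'⟩ := hacc
        exact Or.inl ⟨z, hz, h2 z hz'⟩
      · right
        push Not at hacc
        intro S hS hc
        exact hbad S (fun z hz => ⟨h1 (hS hz), hacc z (hS hz)⟩) hc
    · right
      refine countable_hyp ?_ hnt
      have hWn : Nontrivial W := by
        by_contra hW'
        rw [not_nontrivial_iff_subsingleton] at hW'
        obtain ⟨x, hx, -⟩ := hnt
        exact absurd (spectrum.of_subsingleton (R := ℂ) (T.restrict hW.inv) ▸ hx)
          (Set.notMem_empty x)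
      have h3 : spectrum ℂ A = (fun k => eval k q) '' spectrum ℂ (T.restrict hW.inv) :=
        spectrum.map_polynomial_aeval (T.restrict hW.inv) q
      obtain ⟨x, hx, -⟩ := hnt
      have h4 : ∀ y ∈ spectrum ℂ (T.restrict hW.inv), eval y q = eval x q := by
        intro y hy
        by_contra hne
        exact hnA ⟨eval y q, h3 ▸ ⟨y, hy, rfl⟩, eval x q, h3 ▸ ⟨x, hx, rfl⟩, hne⟩
      have hqc : q - Polynomial.C (eval x q) ≠ 0 := by
        intro h
        have h1 := natDegree_sub_C (p := q) (a := eval x q)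
        rw [h, natDegree_zero] at h1
        omega
      have h5 : spectrum ℂ (T.restrict hW.inv) ⊆ {y | y ∈ (q - Polynomial.C (eval x q)).roots} := by
        intro y hy
        simp only [Set.mem_setOf_eq]
        rw [mem_roots hqc, IsRoot.def, eval_sub, eval_C, h4 y hy, sub_self]
      exact (Set.Finite.subset (Multiset.finite_toSet _) h5).countable
  rcases h with h | ⟨G, _, _, _, N, J, h1, h2, h3, h4⟩
  · exact hsc H T q hred h key
  · exact final_principle h1 h2 hred hq h3 h4 key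

end G

end Pool.Agent.H933.EP
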