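import Pool.Agent.H933.EP.Fin
import Pool.Agent.H800.RN.Bann
import Pool.Agent.H253.RN.Apx

/-!
# Perturbations on Banach spaces, parts of `N + K`
-/

set_option autoImplicit false
set_option linter.unusedSectionVars false
set_option linter.unusedVariables false

open MeasureTheory Metric Polynomial
open scoped Real InnerProductSpace ENNReal NNReal

namespace Pool.Agent.H933.EP

open Pool.Agent.H933.LL Pool.Agent.H933.RN

section A

variable {X : Type} [NormedAddCommGroup X] [NormedSpace ℂ X] [CompleteSpace X]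

lemma growth_ne {S : X →L[ℂ] X} {E : Set ℂ} {A : ℝ} (h : GrowthOff S E A) (hX : Nontrivial X) :
    E.Nonempty := by
  obtain ⟨C, hC⟩ := h
  obtain ⟨z, hz⟩ := spectrum.nonempty S
  by_contra hE
  rw [Set.not_nonempty_iff_eq_empty] at hE
  exact hz (hC z (by rw [hE]; exact Set.notMem_empty z)).1

lemma nontrivial_of_spec {T : X →L[ℂ] X} {l : ℂ} (hl : l ∈ spectrum ℂ T) : Nontrivial X := by
  by_contra hH
  rw [not_nontrivial_iff_subsingleton] at hH
  exact absurd (spectrum.of_subsingleton (R := ℂ) T ▸ hl) (Set.notMem_empty l)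

lemma rate_bann {S K : X →L[ℂ] X} {E : Set ℂ} {A θ : ℝ} (hA : 0 < A) (hθ : 0 < θ)
    (hS : GrowthOff S E A) (hK : LogApprox K θ) (c : ℝ) (hc : 0 < c) :
    ∃ C : ℝ, RateW S ((c : ℂ) • K) E (fun d => d ^ (-(A * θ))) C := by
  obtain ⟨C, hC⟩ := Pool.Agent.H800.RN.p_bann X S K E A θ hA hθ hS hK c hc
  exact ⟨C, hC.congr fun d hd => (pw_eq (A * θ) d hd).symm⟩

/-- individual perturbations -/
theorem bann_hyper (S K : X →L[ℂ] X) (E : Set ℂ) (A θ : ℝ) (hA : 0 < A) (hθ : 0 < θ)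
    (hE : IsClosed E) (hS : GrowthOff S E A) (hK : LogApprox K θ) (l : ℂ)
    (hl : l ∈ spectrum ℂ (S + K)) (hG : Accessible E l (A * θ))
    (hn : (spectrum ℂ (S + K)).Nontrivial) :
    ∃ V : Submodule ℂ X, LL.Hyper (S + K) V ∧ V ≠ ⊥ ∧ V ≠ ⊤ := by
  have hne : E.Nonempty := growth_ne hS (nontrivial_of_spec hl)
  have hη : 0 < A * θ := mul_pos hA hθ
  obtain ⟨C, hR⟩ := rate_bann hA hθ hS hK 1 one_pos
  rw [Complex.ofReal_one, one_smul] at hR
  by_cases hev : ∀ v : ℂ, v ∉ E → ∀ x : X, (S + K) x = v • x → x = 0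
  · have hres := res_of_no_eig S K E _ C hE hne hR hev
    exact hyper_one sep2 (S + K) l hl (domAt_of_logLogAt domar2
      (acc_at S K E _ C hη hne hR l (acc_of_accessible hη hne hG) (Or.inl hres))) hn
  · push Not at hev
    obtain ⟨v, hv, x, hx, hx0⟩ := hev
    exact hyper_of_eig (S + K) v x hx0 hx hn

theorem bann_dec (S K : X →L[ℂ] X) (E : Set ℂ) (A θ : ℝ) (hA : 0 < A) (hθ : 0 < θ)
    (hE : IsClosed E) (hS : GrowthOff S E A) (hK : LogApprox K θ)
    (hG : ∀ l ∈ E, Accessible E l (A * θ))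
    (hint : interior (spectrum ℂ (S + K)) = ∅) : Decomposable (S + K) := by
  have hη : 0 < A * θ := mul_pos hA hθ
  have hdense : Dense (resolventSet ℂ (S + K)) := by
    have h1 : resolventSet ℂ (S + K) = (spectrum ℂ (S + K))ᶜ := by
      rw [spectrum, compl_compl]
    rw [h1]
    exact interior_eq_empty_iff_dense_compl.1 hint
  obtain ⟨C, hR⟩ := rate_bann hA hθ hS hK 1 one_pos
  rw [Complex.ofReal_one, one_smul] at hR
  refine LL.dec_at Pool.Agent.H734.LL.p_glue5 (S + K) fun l hl' => ?_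
  have hne : E.Nonempty := growth_ne hS (nontrivial_of_spec hl')
  by_cases hl : l ∈ E
  · exact acc_at S K E _ C hη hne hR l (acc_of_accessible hη hne (hG l hl)) (Or.inr hdense)
  · exact LL.off_at chb5 whit5 S K E _ C hη hE hne hR l hl hdense

theorem bann_qe (S K : X →L[ℂ] X) (E : Set ℂ) (A θ s : ℝ) (hA : 0 < A) (hθ : 0 < θ)
    (hs : A * θ < s) (hE : IsClosed E) (hne : E.Nonempty) (hS : GrowthOff S E A)
    (hK : LogApprox K θ) (l : ℂ) (R : ℝ) (hnull : volume (E ∩ ball l R) = 0)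
    (hI : IntegrableOn (fun z : ℂ => (infDist z E) ^ (-s)) (ball l R)) :
    CapNull {κ : ℂ | ¬ ∀ z ∈ ball l R, LogLogAt (S + κ • K) z} :=
  qe_at (Pool.Agent.H271.LL.p_aeloc fixmu Pool.Agent.H914.LL.p_jen) S K E (A * θ) s l R
    (mul_pos hA hθ) hs hE hne hnull hI (fun c hc => rate_bann hA hθ hS hK c hc)

theorem bann_qe_hyper (S K : X →L[ℂ] X) (E : Set ℂ) (A θ s : ℝ) (hA : 0 < A) (hθ : 0 < θ)
    (hs : A * θ < s) (hE : IsClosed E) (hS : GrowthOff S E A)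
    (hK : LogApprox K θ) (l : ℂ) (R : ℝ) (hnull : volume (E ∩ ball l R) = 0)
    (hI : IntegrableOn (fun z : ℂ => (infDist z E) ^ (-s)) (ball l R)) :
    CapNull {κ : ℂ | (spectrum ℂ (S + κ • K) ∩ ball l R).Nonempty ∧
      (spectrum ℂ (S + κ • K)).Nontrivial ∧
      ¬ ∃ V : Submodule ℂ X, LL.Hyper (S + κ • K) V ∧ V ≠ ⊥ ∧ V ≠ ⊤} := by
  rcases subsingleton_or_nontrivial X with hX | hX
  · refine CapNull.mono (t := ∅) (fun μ _ _ _ _ => by simp) ?_
    rintro κ ⟨⟨z, hz, -⟩, -⟩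
    rw [spectrum.of_subsingleton (R := ℂ) (S + κ • K)] at hz
    exact absurd hz (Set.notMem_empty z)
  · refine (bann_qe S K E A θ s hA hθ hs hE (growth_ne hS hX) hS hK l R hnull hI).mono fun κ hκ h => ?_
    obtain ⟨⟨z, hz1, hz2⟩, h2, h3⟩ := hκ
    exact h3 (hyper_one sep2 (S + κ • K) z hz1 (domAt_of_logLogAt domar2 (h z hz2)) h2)

theorem bann_qe_dec (S K : X →L[ℂ] X) (E : Set ℂ) (A θ s : ℝ) (hA : 0 < A) (hθ : 0 < θ)
    (hs : A * θ < s) (hE : IsClosed E) (hS : GrowthOff S E A) (hK : LogApprox K θ)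
    (h : ∀ R : ℝ, volume (E ∩ ball (0 : ℂ) R) = 0 ∧
      IntegrableOn (fun z : ℂ => (infDist z E) ^ (-s)) (ball (0 : ℂ) R)) :
    CapNull {κ : ℂ | ¬ Decomposable (S + κ • K)} := by
  rcases subsingleton_or_nontrivial X with hX | hX
  · refine CapNull.mono (t := ∅) (fun μ _ _ _ _ => by simp) ?_
    intro κ hκ
    exfalso
    apply hκ
    refine LL.dec_at Pool.Agent.H734.LL.p_glue5 (S + κ • K) fun l hl => ?_
    exact absurd (spectrum.of_subsingleton (R := ℂ) (S + κ • K) ▸ hl) (Set.notMem_empty l)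
  · have h1 : CapNull (⋃ n : ℕ, {κ : ℂ | ¬ ∀ z ∈ ball (0 : ℂ) (n : ℝ), LogLogAt (S + κ • K) z}) :=
      CapNull.iUnion fun n => bann_qe S K E A θ s hA hθ hs hE (growth_ne hS hX) hS hK 0 n
        (h n).1 (h n).2
    refine h1.mono fun κ hκ => ?_
    by_contra h2
    apply hκ
    refine LL.dec_at Pool.Agent.H734.LL.p_glue5 (S + κ • K) fun l _ => ?_
    obtain ⟨n, hn⟩ := exists_nat_gt ‖l‖
    by_contra hl
    apply h2
    rw [Set.mem_iUnion]
    exact ⟨n, fun h3 => hl (h3 l (by rw [mem_ball_zero_iff]; exact hn))⟩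

end A

section H

variable {G : Type} [NormedAddCommGroup G] [InnerProductSpace ℂ G] [CompleteSpace G]
variable {V : Type} [NormedAddCommGroup V] [InnerProductSpace ℂ V] [CompleteSpace V]

/-- parts of `N + K` -/
theorem parts {N K : G →L[ℂ] G} (hN : IsStarNormal N) {A : V →L[ℂ] V} {j : V →L[ℂ] G}
    (hj : ∃ c : ℝ, 0 < c ∧ ∀ x, c * ‖x‖ ≤ ‖j x‖) (h : (N + K).comp j = j.comp A) {z : ℂ}
    (hz : z ∈ spectrum ℂ A) (hF : Fav (spectrum ℂ N) K z) :
    (∃ c : ℂ, A = c • (1 : V →L[ℂ] V)) ∨ ∃ W : Submodule ℂ V, LL.Hyper A W ∧ W ≠ ⊥ ∧ W ≠ ⊤ := by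
  obtain ⟨L, hL⟩ := Pool.Agent.K4H63.RD.left_inverse hj
  rcases acc_left_pt domar2 lev gch rateM sep2 Pool.Agent.H920.RN.p_fin hN hL
    (fun v => congrArg (fun S : V →L[ℂ] G => S v) h) hz hF with h1 | ⟨W, h1, h2, h3, h4⟩
  · exact Or.inl h1
  · exact Or.inr ⟨W, ⟨h1, h4⟩, h2, h3⟩

end H

end Pool.Agent.H933.EP
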