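import Pool.Agent.H933.EP.Asm2
import Pool.Agent.H650.EP.Gch

/-!
# The endpoint: complements
-/

set_option autoImplicit false
set_option linter.unusedSectionVars false
set_option linter.unusedVariables false

open MeasureTheory Metric Polynomial
open scoped Real InnerProductSpace ENNReal NNReal

namespace Pool.Agent.H933.EP

open Pool.Agent.H933.LL Pool.Agent.H650.EP Pool.Agent.H650.EP.GchAux Pool.Agent.H686.LL.GlocAux

lemma vol_ball_le (l : ℂ) (R ρ : ℝ) (hR : 0 < R) (h : 6 * R ≤ ρ) :
    volume (ball l R) ≤ ENNReal.ofReal (ρ ^ 2 / 8) := by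
  rw [Complex.volume_ball]
  have h1 : (NNReal.pi : ℝ≥0∞) = ENNReal.ofReal π := by
    rw [← NNReal.coe_real_pi, ENNReal.ofReal_coe_nnreal]
  rw [h1, ← ENNReal.ofReal_pow hR.le, ← ENNReal.ofReal_mul (by positivity)]
  refine ENNReal.ofReal_le_ofReal ?_
  have h2 : π ≤ 4 := Real.pi_le_four
  have h4 : (6 * R) ^ 2 ≤ ρ ^ 2 := pow_le_pow_left₀ (by positivity) h 2
  nlinarith [sq_nonneg R]

/-- Levinson's condition: functions of the vertical distance from a continuous graph -/
theorem thin_strip (φ : ℝ → ℝ) (hφ : Continuous φ) (u : ℂ) (hu : ‖u‖ = 1) (m : ℝ → ℝ)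
    (hm0 : ∀ s, 0 ≤ m s) (hm : ∀ s t : ℝ, 0 < s → s ≤ t → m t ≤ m s)
    (hmi : IntegrableOn m (Set.Ioc 0 1)) (l : ℂ) (R : ℝ) (hR : 0 < R) :
    ThinLevels (fun z => m |(u * z).im - φ (u * z).re|) (ball l R) := by
  -- a measurable version of `m`
  set H : ℝ → ℝ := fun s => if 0 < s then m s else 0 with hH
  have hHm : Measurable H := by
    refine measurable_of_Ici fun x => ?_
    rcases le_or_gt x 0 with hx | hx
    · have : H ⁻¹' Set.Ici x = Set.univ := by
        ext s
        simp only [Set.mem_preimage, Set.mem_Ici, Set.mem_univ, iff_true, hH]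
        split_ifs
        · exact hx.trans (hm0 s)
        · exact hx
      rw [this]
      exact MeasurableSet.univ
    · have h1 : (H ⁻¹' Set.Ici x).OrdConnected := by
        refine ⟨fun s hs t ht z hz => ?_⟩
        simp only [Set.mem_preimage, Set.mem_Ici, hH] at hs ht ⊢
        have hs0 : 0 < s := by
          by_contra h
          rw [if_neg h] at hs
          linarith
        have hz0 : 0 < z := hs0.trans_le hz.1
        have ht0 : 0 < t := hz0.trans_le hz.2
        rw [if_pos hz0]
        rw [if_pos ht0] at ht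
        exact ht.trans (hm z t hz0 hz.2)
      exact h1.measurableSet
  have hH0 : ∀ s, 0 ≤ H s := fun s => by
    rw [hH]
    dsimp only
    split_ifs
    · exact hm0 s
    · exact le_rfl
  have hi : ∫⁻ s in Set.Ioc (0 : ℝ) 1, ENNReal.ofReal (H s + 1) < ⊤ := by
    have h1 : IntegrableOn (fun s => m s + 1) (Set.Ioc (0 : ℝ) 1) := by
      refine hmi.add (integrableOn_const ?_)
      rw [Real.volume_Ioc]
      exact ENNReal.ofReal_ne_top
    have h2 := h1.lintegral_lt_top
    refine lt_of_eq_of_lt (setLIntegral_congr_fun measurableSet_Ioc fun s hs => ?_) h2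
    simp only [hH, if_pos hs.1]
  have hsum := levels hHm hH0 hi
  set A : ℕ → Set ℝ := fun k => {s : ℝ | s ∈ Set.Ioc (0 : ℝ) 1 ∧ (k : ℝ) ≤ H s} with hA
  have hAfin : ∀ k, volume (A k) ≠ ⊤ := fun k => by
    have h1 : volume (A k) ≤ volume (Set.Ioc (0 : ℝ) 1) := measure_mono fun s hs => hs.1
    rw [Real.volume_Ioc] at h1
    exact (h1.trans_lt ENNReal.ofReal_lt_top).ne
  obtain ⟨n, hn⟩ := exists_nat_gt (m 1)
  refine ⟨fun k => 32 * (volume (A k)).toReal + if (k : ℝ) ≤ m 1 then 6 * R else 0,
    fun k => by dsimp only; split_ifs <;> positivity,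
    ((ENNReal.summable_toReal hsum.ne).mul_left 32).add ?_, ?_⟩
  · refine summable_of_ne_finset_zero (s := Finset.range n) fun k hk => ?_
    rw [if_neg]
    intro h
    rw [Finset.mem_range, not_lt] at hk
    have : (n : ℝ) ≤ k := by exact_mod_cast hk
    linarith
  · intro k z ρ hr hρ
    dsimp only at hr
    by_cases hk : (k : ℝ) ≤ m 1
    · rw [if_pos hk] at hr
      refine (measure_mono fun v hv => hv.2.1).trans (vol_ball_le l R ρ hR ?_)
      have : 0 ≤ (volume (A k)).toReal := ENNReal.toReal_nonneg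
      linarith
    · rw [if_neg hk, add_zero] at hr
      set y := (volume (A k)).toReal with hy
      have hy0 : 0 ≤ y := ENNReal.toReal_nonneg
      have hsub : {v : ℂ | v ∈ ball z ρ ∧ v ∈ ball l R ∧
          (k : ℝ) ≤ m |(u * v).im - φ (u * v).re|} ⊆
          {v : ℂ | v ∈ ball z ρ ∧ ht φ u v ≤ y} := by
        rintro v ⟨hv1, -, hv3⟩
        refine ⟨hv1, ?_⟩
        have hht : ht φ u v = |(u * v).im - φ (u * v).re| := rfl
        rw [← hht] at hv3
        have hht0 : 0 ≤ ht φ u v := by rw [hht]; exact abs_nonneg _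
        rcases hht0.eq_or_lt with h0 | h0
        · rw [← h0]
          exact hy0
        · have h1 : ht φ u v < 1 := by
            by_contra h
            push Not at h
            exact hk (hv3.trans (hm 1 _ one_pos h))
          have h2 : Set.Ioc 0 (ht φ u v) ⊆ A k := by
            intro s hs
            refine ⟨⟨hs.1, hs.2.trans h1.le⟩, ?_⟩
            simp only [hH, if_pos hs.1]
            exact hv3.trans (hm s _ hs.1 hs.2)
          have h3 : ENNReal.ofReal (ht φ u v) ≤ volume (A k) := by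
            have h3 := measure_mono (μ := (volume : Measure ℝ)) h2
            rwa [Real.volume_Ioc, sub_zero] at h3
          exact (ENNReal.ofReal_le_iff_le_toReal (hAfin k)).1 h3
      refine (measure_mono hsub).trans ((strip' hφ hu z ρ y hρ hy0).trans ?_)
      refine ENNReal.ofReal_le_ofReal ?_
      nlinarith

section H

variable {H : Type} [NormedAddCommGroup H] [InnerProductSpace ℂ H]

/-- decay of the singular values and the Macaev classes -/
theorem macaev_of_decay (K : H →L[ℂ] H) (η β : ℝ) (hη : 0 < η) (hηβ : η < β)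
    (hK : LogSchatten K η) : MacaevClass K β := by
  obtain ⟨ι, e, f, s, h1, h2, h3, ⟨C, h4⟩, h5⟩ := hK
  have hβ : 0 < β := hη.trans hηβ
  have hfin : ∀ δ : ℝ, 0 < δ → {i | δ < s i}.Finite := by
    intro δ hδ
    rcases le_total δ 1 with h | h
    · exact (h4 δ hδ h).1
    · exact (h4 1 one_pos le_rfl).1.subset fun i hi => lt_of_le_of_lt h hi
  refine ⟨ι, e, f, s, h1, h2, h3, hfin, ?_, h5⟩
  have hanti : AntitoneOn (fun δ : ℝ => Real.log (1 + ({i | δ < s i}.ncard : ℝ))) (Set.Ioi 0) := by
    intro a ha b hb hab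
    have h6 : ({i | b < s i}.ncard : ℝ) ≤ ({i | a < s i}.ncard : ℝ) := by
      exact_mod_cast Set.ncard_le_ncard (fun i hi => lt_of_le_of_lt hab hi) (hfin a ha)
    exact Real.log_le_log (by positivity) (by linarith)
  have hbd : IntegrableOn (fun δ : ℝ => δ ^ (β - 1) + |C| * δ ^ (β - 1 - η)) (Set.Ioc 0 1) := by
    have k1 : IntegrableOn (fun δ : ℝ => δ ^ (β - 1)) (Set.Ioc 0 1) := by
      have := intervalIntegral.intervalIntegrable_rpow' (a := 0) (b := 1) (r := β - 1) (by linarith)
      rwa [intervalIntegrable_iff_integrableOn_Ioc_of_le zero_le_one] at this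
    have k2 : IntegrableOn (fun δ : ℝ => δ ^ (β - 1 - η)) (Set.Ioc 0 1) := by
      have := intervalIntegral.intervalIntegrable_rpow' (a := 0) (b := 1) (r := β - 1 - η)
        (by linarith)
      rwa [intervalIntegrable_iff_integrableOn_Ioc_of_le zero_le_one] at this
    exact k1.add (k2.const_mul _)
  refine Integrable.mono' hbd ?_ ?_
  · have h7 : AEMeasurable (fun δ : ℝ => Real.log (1 + ({i | δ < s i}.ncard : ℝ)))
        (volume.restrict (Set.Ioc 0 1)) :=
      aemeasurable_restrict_of_antitoneOn measurableSet_Ioc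
        (hanti.mono fun x hx => hx.1)
    have h8 : AEMeasurable (fun δ : ℝ => δ ^ (β - 1)) (volume.restrict (Set.Ioc 0 1)) :=
      (measurable_id.pow_const _).aemeasurable
    exact (h8.mul h7).aestronglyMeasurable
  · filter_upwards [ae_restrict_mem measurableSet_Ioc] with δ hδ
    have hδ0 := hδ.1
    have hn : 0 ≤ Real.log (1 + ({i | δ < s i}.ncard : ℝ)) :=
      Real.log_nonneg (by have : (0 : ℝ) ≤ ({i | δ < s i}.ncard : ℝ) := Nat.cast_nonneg _
                          linarith)
    have hp : 0 ≤ δ ^ (β - 1) := Real.rpow_nonneg hδ0.le _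
    rw [Real.norm_of_nonneg (mul_nonneg hp hn)]
    have h9 : Real.log (1 + ({i | δ < s i}.ncard : ℝ)) ≤ 1 + |C| * δ ^ (-η) := by
      have k1 := (h4 δ hδ0 hδ.2).2
      have k2 : C * δ ^ (-η) ≤ |C| * δ ^ (-η) :=
        mul_le_mul_of_nonneg_right (le_abs_self _) (Real.rpow_nonneg hδ0.le _)
      have k3 : (1 : ℝ) + ({i | δ < s i}.ncard : ℝ) ≤ Real.exp (1 + |C| * δ ^ (-η)) := by
        have k4 : ({i | δ < s i}.ncard : ℝ) ≤ Real.exp (|C| * δ ^ (-η)) :=
          k1.trans (Real.exp_le_exp.2 k2)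
        have k5 : 1 ≤ Real.exp (|C| * δ ^ (-η)) :=
          Real.one_le_exp (mul_nonneg (abs_nonneg _) (Real.rpow_nonneg hδ0.le _))
        have k6 : 2 ≤ Real.exp 1 := by
          have := Real.add_one_le_exp (1 : ℝ)
          linarith
        rw [Real.exp_add]
        nlinarith
      calc Real.log (1 + ({i | δ < s i}.ncard : ℝ)) ≤ Real.log (Real.exp (1 + |C| * δ ^ (-η))) :=
            Real.log_le_log (by positivity) k3
        _ = _ := Real.log_exp _
    calc δ ^ (β - 1) * Real.log (1 + ({i | δ < s i}.ncard : ℝ))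
        ≤ δ ^ (β - 1) * (1 + |C| * δ ^ (-η)) := mul_le_mul_of_nonneg_left h9 hp
      _ = δ ^ (β - 1) + |C| * (δ ^ (β - 1) * δ ^ (-η)) := by ring
      _ = δ ^ (β - 1) + |C| * δ ^ (β - 1 - η) := by
          rw [← Real.rpow_add hδ0]
          ring_nf

/-- multiples by numbers in `(0, 1]` -/
theorem macaev_smul (K : H →L[ℂ] H) (β c : ℝ) (hβ : 0 < β) (hc : 0 < c) (hc1 : c ≤ 1)
    (hK : MacaevClass K β) : MacaevClass ((c : ℂ) • K) β := by
  obtain ⟨ι, e, f, s, h1, h2, h3, h4, h5, h6⟩ := hK
  have hsub : ∀ δ : ℝ, {i | δ < c * s i} ⊆ {i | δ < s i} := by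
    intro δ i hi
    have h7 : c * s i ≤ s i := by nlinarith [h3 i]
    exact lt_of_lt_of_le hi h7
  have hfin : ∀ δ : ℝ, 0 < δ → {i | δ < c * s i}.Finite := fun δ hδ => (h4 δ hδ).subset (hsub δ)
  refine ⟨ι, e, f, fun i => c * s i, h1, h2, fun i => mul_nonneg hc.le (h3 i), hfin, ?_, fun x => ?_⟩
  · refine Integrable.mono' h5 ?_ ?_
    · have hanti : AntitoneOn (fun δ : ℝ => Real.log (1 + ({i | δ < c * s i}.ncard : ℝ)))
          (Set.Ioi 0) := by
        intro a ha b hb hab
        have h6 : ({i | b < c * s i}.ncard : ℝ) ≤ ({i | a < c * s i}.ncard : ℝ) := by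
          exact_mod_cast Set.ncard_le_ncard (fun i hi => lt_of_le_of_lt hab hi) (hfin a ha)
        exact Real.log_le_log (by positivity) (by linarith)
      have h7 : AEMeasurable (fun δ : ℝ => Real.log (1 + ({i | δ < c * s i}.ncard : ℝ)))
          (volume.restrict (Set.Ioc 0 1)) :=
        aemeasurable_restrict_of_antitoneOn measurableSet_Ioc
          (hanti.mono fun x hx => hx.1)
      have h8 : AEMeasurable (fun δ : ℝ => δ ^ (β - 1)) (volume.restrict (Set.Ioc 0 1)) :=
        (measurable_id.pow_const _).aemeasurable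
      exact (h8.mul h7).aestronglyMeasurable
    · filter_upwards [ae_restrict_mem measurableSet_Ioc] with δ hδ
      have hδ0 := hδ.1
      have hn : 0 ≤ Real.log (1 + ({i | δ < c * s i}.ncard : ℝ)) :=
        Real.log_nonneg (by have : (0 : ℝ) ≤ ({i | δ < c * s i}.ncard : ℝ) := Nat.cast_nonneg _
                            linarith)
      have hp : 0 ≤ δ ^ (β - 1) := Real.rpow_nonneg hδ0.le _
      rw [Real.norm_of_nonneg (mul_nonneg hp hn)]
      refine mul_le_mul_of_nonneg_left ?_ hp
      have h6 : ({i | δ < c * s i}.ncard : ℝ) ≤ ({i | δ < s i}.ncard : ℝ) := by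
        exact_mod_cast Set.ncard_le_ncard (hsub δ) (h4 δ hδ0)
      exact Real.log_le_log (by positivity) (by linarith)
  · have h7 := (h6 x).const_smul (c : ℂ)
    have h8 : (fun i => (c : ℂ) • ((s i : ℂ) * ⟪e i, x⟫_ℂ) • f i)
        = fun i => (((c * s i : ℝ) : ℂ) * ⟪e i, x⟫_ℂ) • f i := by
      funext i
      rw [smul_smul]
      congr 1
      push_cast
      ring
    rw [h8] at h7
    exact h7

end H

end Pool.Agent.H933.EP
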