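import Pool.Agent.H933.EP.Extra
import Pool.Agent.H307.EP.Cut2
import Pool.Agent.H962.EP.Glue2
import Pool.Agent.H980.EP.Clos2
import Pool.Agent.H825.EP.Split2
import Pool.Agent.H245.EP.Sep2
import Pool.Agent.H163.EP.Lev
import Pool.Agent.H163.EP.RateM
import Pool.Agent.H177.EP.Domar2
import Pool.Agent.H641.RN.Restr
import Pool.Agent.H116.RN.Riesz
import Pool.Agent.H920.RN.FinR
import Pool.Agent.H388.RN.Sc
import Pool.Agent.H401.EP.Berg2

/-!
# The endpoint: conclusions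
-/

set_option autoImplicit false
set_option linter.unusedSectionVars false
set_option linter.unusedVariables false

open MeasureTheory Metric Polynomial
open scoped Real InnerProductSpace ENNReal NNReal

namespace Pool.Agent.H933.EP

open Pool.Agent.H933.LL Pool.Agent.W402.HI Pool.Agent.W706.HIR Pool.Agent.K4H63.RD

theorem domar2 : P_domar2 := Pool.Agent.H177.EP.p_domar2
theorem lev : P_lev := Pool.Agent.H163.EP.p_lev
theorem gch : P_gch := Pool.Agent.H650.EP.p_gch
theorem rateM : P_rateM := Pool.Agent.H163.EP.p_rateM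
theorem berg2 : P_berg2 := Pool.Agent.H401.EP.p_berg2
theorem adm2 : P_adm2 := Pool.Agent.H245.EP.p_adm2 berg2
theorem sep2 : P_sep2 := Pool.Agent.H245.EP.p_sep2 Pool.Agent.H307.EP.p_cut2 adm2
theorem split2 : P_split2 := Pool.Agent.H825.EP.p_split2 Pool.Agent.H307.EP.p_cut2

theorem thin_strip' (φ : ℝ → ℝ) (hφ : Continuous φ) (u : ℂ) (hu : ‖u‖ = 1) (m : ℝ → ℝ)
    (hm0 : ∀ s, 0 ≤ m s) (hm : ∀ s t : ℝ, 0 < s → s ≤ t → m t ≤ m s)
    (hmi : IntegrableOn m (Set.Ioc 0 1)) (l : ℂ) (R : ℝ) (hR : 0 < R) :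
    ThinLevels (fun z => m |(u * z).im - φ (u * z).re|) (ball l R) :=
  thin_strip φ hφ u hu m hm0 hm hmi l R hR

section G

variable {G : Type} [NormedAddCommGroup G] [InnerProductSpace ℂ G] [CompleteSpace G]
variable {H : Type} [NormedAddCommGroup H] [InnerProductSpace ℂ H] [CompleteSpace H]

theorem criterion' {T : H →L[ℂ] H} (hred : Reductive T) {q : ℂ[X]} (hq : 0 < q.natDegree)
    (hbad : IsTotallyDisconnected {z | z ∈ spectrum ℂ (aeval T q) ∧ ¬ DomAt (aeval T q) z})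
    (h : IsCompactOperator (sc T) ∨ ∃ (G : Type) (_ : NormedAddCommGroup G)
      (_ : InnerProductSpace ℂ G) (_ : CompleteSpace G) (N : G →L[ℂ] G) (J : H →L[ℂ] G),
      IsStarNormal N ∧ volume (spectrum ℂ N) = 0 ∧ (∃ c : ℝ, 0 < c ∧ ∀ x, c * ‖x‖ ≤ ‖J x‖) ∧
      IsCompactOperator (N.comp J - J.comp (aeval T q) : H →L[ℂ] G)) : IsStarNormal T :=
  criterion sep2 Pool.Agent.H116.RN.p_riesz Pool.Agent.H388.RN.p_sc Pool.Agent.H641.RN.p_restr hred hq
    hbad h

theorem individual_red' {N K : G →L[ℂ] G} (hN : IsStarNormal N) (hKc : IsCompactOperator K)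
    (hbad : IsTotallyDisconnected {z | z ∈ spectrum ℂ N ∧ ¬ Fav (spectrum ℂ N) K z}) :
    RN.GoodOp (N + K) (volume (spectrum ℂ N) = 0) :=
  individual_red domar2 lev gch rateM sep2 Pool.Agent.H116.RN.p_riesz Pool.Agent.H920.RN.p_fin
    Pool.Agent.H388.RN.p_sc hN hKc hbad

theorem couplings' {N K : G →L[ℂ] G} {η s : ℝ}
    (hη : 0 < η) (hs : η < s) (hN : IsStarNormal N) (hK : LogSchatten K η)
    (hbad : IsTotallyDisconnected {l | l ∈ spectrum ℂ N ∧ ¬ RN.ThinAt (spectrum ℂ N) l s}) :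
    CapNull {κ : ℂ | ¬ RN.GoodOp (N + κ • K) (volume (spectrum ℂ N) = 0)} :=
  RN.couplings Pool.Agent.H116.RN.p_riesz Pool.Agent.H686.RN.p_left Pool.Agent.H388.RN.p_sc hη hs hN hK
    hbad

lemma vol_line : volume {z : ℂ | z.im = 0} = 0 := by
  have h : {z : ℂ | z.im = 0} = ((LinearMap.ker (Complex.imLm)) : Submodule ℝ ℂ) := by
    ext z; simp [LinearMap.mem_ker]
  rw [h]
  refine Measure.addHaar_submodule volume _ ?_
  intro ht
  have : Complex.I ∈ LinearMap.ker Complex.imLm := by rw [ht]; trivial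
  simp [LinearMap.mem_ker] at this

/-- the cartesian decomposition -/
theorem cartesian (C : G →L[ℂ] G) (hC : MacaevClass (C - ContinuousLinearMap.adjoint C) 1) :
    ∃ N K : G →L[ℂ] G, IsStarNormal N ∧ N + K = C ∧ MacaevClass K 1 ∧
      volume (spectrum ℂ N) = 0 ∧ ∀ l : ℂ, OnGraph (spectrum ℂ N) l 1 := by
  have hsa : IsSelfAdjoint (((1 / 2 : ℝ) : ℂ) • (C + ContinuousLinearMap.adjoint C)) := by
    rw [isSelfAdjoint_iff, ContinuousLinearMap.star_eq_adjoint, map_smulₛₗ, map_add,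
      ContinuousLinearMap.adjoint_adjoint, Complex.conj_ofReal, add_comm]
  have him : ∀ z ∈ spectrum ℂ (((1 / 2 : ℝ) : ℂ) • (C + ContinuousLinearMap.adjoint C)), z.im = 0 :=
    fun z hz => by
      have := hsa.mem_spectrum_eq_re hz
      rw [this]
      simp
  refine ⟨((1 / 2 : ℝ) : ℂ) • (C + ContinuousLinearMap.adjoint C),
    ((1 / 2 : ℝ) : ℂ) • (C - ContinuousLinearMap.adjoint C), hsa.isStarNormal, ?_,
    macaev_smul _ 1 (1 / 2) one_pos (by norm_num) (by norm_num) hC, ?_, fun l => ?_⟩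
  · rw [← smul_add, add_add_sub_cancel, ← two_smul ℂ, smul_smul]
    norm_num
  · exact measure_mono_null (t := {z : ℂ | z.im = 0}) him vol_line
  · refine ⟨fun _ => 0, 0, 1, 1, fun s t => by simp, by simp, one_pos, fun z hz _ => ?_⟩
    rw [one_mul]
    exact him z hz

end G

end Pool.Agent.H933.EP
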