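import Pool.Agent.H16.EP.Hthin
import Pool.Agent.H933.EP.Fin

/-!
# Hölder curves of order greater than one half are thin
-/

set_option autoImplicit false

open MeasureTheory Metric
open scoped Real NNReal ENNReal

namespace Pool.Agent.H933.EP

open Pool.Agent.H933.LL

theorem hoelder_thin (φ : UnitAddCircle → ℂ) (L α : ℝ≥0) (hα : (1 / 2 : ℝ) < α)
    (hφ : HolderWith L α φ) (p : ℝ) (hp : 0 < p) :
    IsClosed (Set.range φ) ∧ (Set.range φ).Nonempty ∧ volume (Set.range φ) = 0 ∧
    ∀ r : ℝ, IntegrableOn (fun z : ℂ => (Real.posLog (infDist z (Set.range φ))⁻¹) ^ p)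
      (ball (0 : ℂ) r) := by
  have hα0 : 0 < α := by
    have : (0 : ℝ) < α := by linarith
    exact_mod_cast this
  have h1 : Continuous φ := hφ.continuous hα0
  obtain ⟨h2, h3⟩ := logThin_of_thin (Pool.Agent.H16.EP.p_hthin φ L α hα hφ) p hp
  exact ⟨(isCompact_range h1).isClosed, Set.range_nonempty φ, h2, h3⟩

end Pool.Agent.H933.EP
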