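import Pool.Agent.H933.LL.Loc7

/-!
# The endpoint: weights with Domar's property (MP_f981b0_an, MP_49c4d9_an)

In project LL the condition was `(log⁺ log⁺ ‖(z - T)⁻¹‖) ^ q` integrable, `q > 1`. Here `log⁺ log⁺ ‖(z - T)⁻¹‖ ≤ a + b`, `a ∈ L^q`,
`b` with thin level sets (for example `b z = m |Im z|`, `m` decreasing with `∫ m < ∞`: the classical condition of
Levinson). Result: `N + K` for `N` normal with spectrum on a Hölder graph of order `α > 1/2` and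
`∑ s_n(K) ^ (2 α - 1) / n < ∞` (for `α = 1`: the Macaev ideal).
-/

set_option autoImplicit false

open MeasureTheory Metric
open scoped Real InnerProductSpace ENNReal

namespace Pool.Agent.H933.EP

open Pool.Agent.H933.LL

/-- Domar's property of the weight `M` on `U` -/
def Dom (M : ℂ → ℝ) (U : Set ℂ) : Prop := ∀ (I ρ : ℝ), 0 ≤ I → 0 < ρ → ∃ C : ℝ,
  ∀ (g : ℂ → ℂ) (W : Set ℂ) (z₀ : ℂ), IsOpen W → closedBall z₀ ρ ⊆ W → closedBall z₀ ρ ⊆ U →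
    DifferentiableOn ℂ g W →
    ∫⁻ z in ball z₀ ρ, ENNReal.ofReal ((‖g z‖ / M z) ^ 2) ≤ ENNReal.ofReal I → ‖g z₀‖ ≤ C

/-- the level sets of `b` in `U` are thin -/
def ThinLevels (b : ℂ → ℝ) (U : Set ℂ) : Prop := ∃ r : ℕ → ℝ, (∀ k, 0 ≤ r k) ∧ Summable r ∧
  ∀ (k : ℕ) (z : ℂ) (ρ : ℝ), r k ≤ ρ → 0 < ρ →
    volume {w : ℂ | w ∈ ball z ρ ∧ w ∈ U ∧ (k : ℝ) ≤ b w} ≤ ENNReal.ofReal (ρ ^ 2 / 8)

/-- **P_domar2** (variant of the done `P_domar`, LL/Stm.lean; proof in Pool/Agent/H337/LL/Domar.lean, theorem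
`Pool.Agent.H337.LL.p_domar`). Fix `g`, `u = log⁺ |g|`, `t j`, `d j`, `z j` as there: `|E j| ≥ π d² (1 - 1/e)/e ≥ (7/10) d²` for
`E j = {z ∈ ball (z j) (d j) : u z ≥ exp (j-1)}`, where the points of `E j` satisfy `t (j-1) ≤ |z - z₀| < t (j+1)`. Here `|g| = M h`, `∫ h² ≤ I`,
`h = |g|/M`, so `u ≤ log⁺ M + log⁺ h` and `E j ⊆ A j ∪ B j ∪ H j`: `H j = {log⁺ h ≥ exp (j-1)/2}` has area at most `I exp (- exp (j-1))`
(Chebyshev), `A j = {a ≥ (j-2)/2}`, `B j = {b ≥ (j-2)/2}` (as `log⁺ log⁺ M ≥ j - 1 - log 2 ≥ j - 2` on the rest). So `d j` is at most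
`r ⌊(j-2)/2⌋` (if `|B j ∩ ball| ≥ d²/5 > d²/8`), or `d j ≤ (4 I)^(1/2) exp (- exp (j-1)/2)` (if `|H j| ≥ (3/10) d²`), or `|A j ∩ ball (z j) (d j)| ≥ d²/5`, and
then, as every point is in at most two of the sets, `∑ ((j-2)/2)^q (d j)² ≤ 10 ∫ a^q` and Cauchy-Schwarz. All three sums over
`j ≥ n` tend to `0` for `n → ∞` (independently of `g`, `z₀`), while their sum is at least `ρ`. -/
def P_domar2 : Prop := ∀ (M a b : ℂ → ℝ) (U : Set ℂ) (q : ℝ), 1 < q → IsOpen U →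
  AEMeasurable M (volume.restrict U) →
  (∀ᵐ z ∂(volume.restrict U), 1 ≤ M z ∧ 0 ≤ a z ∧ Real.posLog (Real.posLog (M z)) ≤ a z + b z) →
  IntegrableOn (fun z => a z ^ q) U → ThinLevels b U → Dom M U

/-- **P_berg2**: variant of the done `P_berg` (LL/Stm.lean; proof in Pool/Agent/H685/LL/Berg.lean), with the property
`Dom` in the place of `P_domar` and the integrability condition. -/
def P_berg2 : Prop := ∀ (M : ℂ → ℝ) (l : ℂ) (r : ℝ), 0 < r →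
  AEMeasurable M (volume.restrict (ball l r)) →
  (∀ᵐ z ∂(volume.restrict (ball l r)), 1 ≤ M z ∧ 1 ≤ M z * ‖z - l‖) → Dom M (ball l r) →
  ∃ h : ℂ → ℂ, AEStronglyMeasurable h (volume.restrict (ball l r)) ∧
    IntegrableOn h (ball l r) ∧ IntegrableOn (fun z => ‖h z‖ * M z) (ball l r) ∧
    (∀ g : ℂ → ℂ, DifferentiableOn ℂ g (ball l r) → (∃ C : ℝ, ∀ z ∈ ball l r, ‖g z‖ ≤ C) →
      ∫ z in ball l r, h z * g z = 0) ∧
    ∫ z in ball l r, h z * (z - l)⁻¹ ≠ 0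

/-- **P_cut2**: variant of the done `P_cut` (LL/Stm4.lean; proof in Pool/Agent/H784/LL/Cut.lean). -/
def P_cut2 : Prop := ∀ (M : ℂ → ℝ) (l : ℂ) (r₁ r₂ : ℝ), 0 < r₁ → r₁ < r₂ →
  AEMeasurable M (volume.restrict (ann l r₁ r₂)) →
  (∀ᵐ z ∂(volume.restrict (ann l r₁ r₂)), 1 ≤ M z) → Dom M (ann l r₁ r₂) →
  ∃ h : ℂ → ℂ, AEStronglyMeasurable h (volume.restrict (ann l r₁ r₂)) ∧
    IntegrableOn h (ann l r₁ r₂) ∧ IntegrableOn (fun z => ‖h z‖ * M z) (ann l r₁ r₂) ∧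
    ∀ g : ℂ → ℂ, DifferentiableOn ℂ g (ann l r₁ r₂) → (∃ C : ℝ, ∀ z ∈ ann l r₁ r₂, ‖g z‖ ≤ C) →
      ∫ z in ann l r₁ r₂, h z * g z = (2 * π * Complex.I)⁻¹ * ∮ z in C(l, (r₁ + r₂) / 2), g z

section Ops

variable {X : Type} [NormedAddCommGroup X] [NormedSpace ℂ X]

/-- the condition at a point -/
def DomAt (T : X →L[ℂ] X) (l : ℂ) : Prop := ∃ r : ℝ, 0 < r ∧ volume (spectrum ℂ T ∩ ball l r) = 0 ∧
  Dom (fun z => 1 + ‖resolvent T z‖) (ball l r)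

/-- the condition on the plane -/
def DomAll (T : X →L[ℂ] X) : Prop := volume (spectrum ℂ T) = 0 ∧
  ∀ r : ℝ, Dom (fun z => 1 + ‖resolvent T z‖) (ball (0 : ℂ) r)

end Ops

/-- **P_glue2** (from points to the plane). Cover the spectrum by finitely many discs `ball l_i (r_i/2)`. Given `closedBall z₀ ρ ⊆ ball 0 r`: if `z₀` is
in one of them use the radius `min ρ (r_i/4)`; otherwise `z₀` is at a distance `≥ ε` from the spectrum, and the resolvent is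
bounded on `closedBall z₀ (min ρ (ε/2))` by a constant independent of `z₀` (compactness), use the mean value property
(`P_mean`-like, or Cauchy's formula) for `g²`. -/
def P_glue2 : Prop := ∀ (X : Type) [NormedAddCommGroup X] [NormedSpace ℂ X] [CompleteSpace X]
  (T : X →L[ℂ] X), (∀ l ∈ spectrum ℂ T, DomAt T l) → DomAll T

/-- **P_clos2**: variant of the done `P_clos` (LL/Stm4.lean; proof in Pool/Agent/H271/LL/Clos.lean). The functions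
`g = ψ (f n - f m)/‖x n - x m‖` satisfy `|g| ≤ ‖resolvent T z‖ ≤ M` almost everywhere, so `∫_{ball z₀ ρ} (|g|/M)² ≤ π ρ²`. -/
def P_clos2 : Prop := ∀ (X : Type) [NormedAddCommGroup X] [NormedSpace ℂ X] [CompleteSpace X]
  (T : X →L[ℂ] X), DomAll T →
  (∀ F : Set ℂ, IsClosed F → ∃ Y : Submodule ℂ X, (∀ x, x ∈ Y ↔ LocSpec T F x) ∧
    IsClosed (Y : Set X) ∧ (∀ Q : X →L[ℂ] X, Q * T = T * Q → ∀ x ∈ Y, Q x ∈ Y) ∧
    ∀ z ∉ F, ∀ y ∈ Y, ∃! x, x ∈ Y ∧ z • x - T x = y) ∧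
  (∀ (F F' : Set ℂ) (x : X), IsClosed F → IsClosed F' → LocSpec T F x → LocSpec T F' x →
    LocSpec T (F ∩ F') x) ∧
  ∀ x : X, LocSpec T (spectrum ℂ T) x

/-- **P_split2**: variant of the done `P_split` (LL/Stm4.lean; proof in Pool/Agent/H356/LL/Split.lean), from `P_cut2`; the
property `Dom` passes to subsets of `U`. Prove `P_cut2 → P_split2`. -/
def P_split2 : Prop := ∀ (X : Type) [NormedAddCommGroup X] [NormedSpace ℂ X] [CompleteSpace X]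
  (T : X →L[ℂ] X), DomAll T → ∀ (l : ℂ) (r₁ r₂ : ℝ), 0 < r₁ → r₁ < r₂ →
  ∃ A : X →L[ℂ] X, (∀ Q : X →L[ℂ] X, Q * T = T * Q → Q * A = A * Q) ∧
    ∀ x : X, LocSpec T (closedBall l r₂) (A x) ∧ LocSpec T (ball l r₁)ᶜ (x - A x)

/-- **P_adm2**: variant of `Pool.Agent.H933.LL.exists_adm` (LL/Gen.lean, short), from `P_berg2` with
`M z = 1 + ‖resolvent T z‖`. Prove `P_berg2 → P_adm2`. -/
def P_adm2 : Prop := ∀ (X : Type) [NormedAddCommGroup X] [NormedSpace ℂ X] [CompleteSpace X]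
  (T : X →L[ℂ] X) (l : ℂ) (r : ℝ), 0 < r → l ∈ spectrum ℂ T →
  volume (spectrum ℂ T ∩ ball l r) = 0 → Dom (fun z => 1 + ‖resolvent T z‖) (ball l r) →
  ∃ h : ℂ → ℂ, Adm T l r h

/-- **P_sep2**: variant of the done `P_sep` (LL/Stm11.lean; proof in Pool/Agent/H670/LL/Sep.lean), from `P_cut2` and
`P_adm2`. Prove `P_cut2 → P_adm2 → P_sep2`. -/
def P_sep2 : Prop := ∀ (X : Type) [NormedAddCommGroup X] [NormedSpace ℂ X] [CompleteSpace X]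
  (T : X →L[ℂ] X) (l : ℂ) (r r₂ : ℝ), 0 < r₂ → r₂ < r → l ∈ spectrum ℂ T →
  volume (spectrum ℂ T ∩ ball l r) = 0 → Dom (fun z => 1 + ‖resolvent T z‖) (ball l r) →
  ∃ A B : X →L[ℂ] X, (∀ Q : X →L[ℂ] X, Q * T = T * Q → Q * A = A * Q) ∧
    (∀ Q : X →L[ℂ] X, Q * T = T * Q → Q * B = B * Q) ∧ B ≠ 0 ∧ A * B = B ∧
    (A = 1 → spectrum ℂ T ⊆ closedBall l r₂)

/-- the radii `rad z` of a family of discs off `E`, comparable in each of them, together with `g ≤ G` -/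
structure Radii (E : Set ℂ) (l : ℂ) (r : ℝ) (g G rad : ℂ → ℝ) (C₂ : ℝ) : Prop where
  one : 1 ≤ C₂
  meas : Measurable rad
  measG : Measurable G
  nonneg : ∀ v, 0 ≤ G v
  pos : ∀ z ∈ ball l r, z ∉ E → 0 < rad z ∧ rad z ≤ infDist z E / 4 ∧ rad z ≤ r / 8
  comp : ∀ z ∈ ball l r, z ∉ E → ∀ v, ‖z - v‖ < rad z →
    rad v ≤ C₂ * rad z ∧ rad z ≤ C₂ * rad v ∧ g z ≤ G v
  int : IntegrableOn (fun z : ℂ => (Real.posLog (rad z)⁻¹) ^ (2 : ℝ)) (ball l r)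

/-- **P_lev** (from averages over discs to `a + b`). Compare the done `P_whit5` (LL/Stm9.lean, Pool/Agent/H740/LL/Whit5.lean). Put
`a₀ v = max 0 (log⁺ (x v) - 2 |C'| (1 + G v) - 2 log⁺ (1/rad v) - c₃)`, `a = a₀ + 2 log⁺ (1/rad v) + c₃`, `c₃ = 2 log C₂`. For `z ∈ ball l r` off `E` and
`|z - v| < rad z`: `a₀ v ≤ max 0 (log⁺ (x v) - s)`, `s = 2 |C'| (1 + g z) + 2 log⁺ (1/rad z)`, and `(max 0 (log⁺ x - s))² ≤ 2 x e^(-s)`, so
`∫_{ball z (rad z)} a₀² ≤ 2 e^(-s) exp (|C'| (1 + g z)) ≤ 2 (rad z)²`. For `v ∈ ball l (r/2)` off `E` all `z` with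
`|z - v| < rad v / C₂` satisfy `|z - v| < rad z` and `rad z ≤ C₂ rad v`, so `∫_{z : |z-v| < rad z} (rad z)⁻² dz ≥ π/C₂⁴`; Tonelli:
`∫_{ball l (r/2)} a₀² ≤ (C₂⁴/π) ∫_{ball l r} 2 dz`. -/
def P_lev : Prop := ∀ (x g G rad : ℂ → ℝ) (E S : Set ℂ) (C' C₂ : ℝ) (l : ℂ) (r : ℝ), 0 < r →
  Measurable x → (∀ v, 0 ≤ x v) → IsClosed E → E.Nonempty → volume (E ∩ ball l r) = 0 →
  (∀ z, 0 ≤ g z) → Radii E l r g G rad C₂ →
  (∀ z ∈ ball l r, z ∉ E →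
    (∀ᵐ v ∂(volume.restrict (ball z (infDist z E / 4))), v ∈ S) ∧
    ∫⁻ v in ball z (infDist z E / 4), ENNReal.ofReal (x v)
      ≤ ENNReal.ofReal (Real.exp (C' * (1 + g z)))) →
  (∃ a : ℂ → ℝ, (∀ v, 0 ≤ a v) ∧ IntegrableOn (fun v : ℂ => a v ^ (2 : ℝ)) (ball l (r / 2)) ∧
    ∀ᵐ v ∂(volume.restrict (ball l (r / 2))), Real.posLog (x v) ≤ a v + 2 * |C'| * (1 + G v)) ∧
  ∀ᵐ v ∂(volume.restrict (ball l (r / 2))), v ∈ S

/-- **P_gch** (chains near Hölder graphs, general weights; variant of the done `P_gloc`, LL/Stm9.lean, proof in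
Pool/Agent/H686/LL/Gloc.lean). `p = 1/α ∈ [1, 2)`, `h z` = the vertical distance of `z` from the graph (after the rotation by
`u`), `dist(z, E) ≥ c₁ min(h,1)^p` near `l`. Chain up from `z`: `t_0 = h`, `t_{j+1} = t_j + c₀ t_j^p`; its cost is at most
`C (1 + ∑_j (1 + w (c₂ t_j^p))) ≤ C' (1 + m (h))`, `m s = ∫_{s/2}^{1} (1 + w (c₂ t^p)) t^(-p) dt` for `s ≤ 1` (`w` is decreasing), and
`∫_0^1 m = ∫ (1 + w (c₂ t^p)) t^(-p) |{s < 2t}| dt ≤ 2 ∫_0^1 (1 + w (c₂ t^p)) t^(1-p) dt < ∞`. `g z = m (min 1 (h z))` off the graph (`0` on it),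
`rad z = c₃ (min 1 (h z))^p` with `c₃` so small that `|h v - h z| ≤ h z / 2` for `|v - z| < rad z` (`L c₃^α + c₃ ≤ 1/2`), `rad ≤ dist/4`, `rad ≤ ρ/8`;
`G v = m (min 1 (h v) / 2)` (`m` is decreasing). Thin levels: `{v ∈ ball z ρ' : c (1 + G v) ≥ k}` lies in `{h v ≤ y_k}`, `y_k` = the supremum of the `s ≤ 1` with
`c (1 + m (s/2)) ≥ k` (`0` if there are none), of area at most `4 ρ' y_k` in a disc of radius `ρ'` (vertical slices), `∑ y_k ≤ ∫ c (1 + m (s/2)) ds + ... < ∞`;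
`r_k = 32 y_k`. (Where `G` is infinite by convention take `0`: a null set.) -/
def P_gch : Prop := ∀ (φ : ℝ → ℝ) (L α R : ℝ) (u l : ℂ) (E : Set ℂ) (w : ℝ → ℝ), 1 / 2 < α → α ≤ 1 →
  (∀ s t : ℝ, |φ s - φ t| ≤ L * |s - t| ^ α) → IsClosed E → E.Nonempty →
  ‖u‖ = 1 → 0 < R → (∀ z ∈ ball l R, z ∈ E ↔ (u * z).im = φ (u * z).re) →
  (∀ d, 0 ≤ w d) → (∀ d d' : ℝ, 0 < d → d ≤ d' → w d' ≤ w d) →
  (∀ c : ℝ, 0 < c → IntegrableOn (fun t : ℝ => w (c * t ^ (1 / α)) * t ^ (1 - 1 / α)) (Set.Ioc 0 1)) →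
  ∃ (ρ C₂ : ℝ) (g G rad : ℂ → ℝ), 0 < ρ ∧ volume (E ∩ ball l ρ) = 0 ∧ (∀ z, 0 ≤ g z) ∧
    Radii E l ρ g G rad C₂ ∧ (∀ c : ℝ, 0 < c → ThinLevels (fun v => c * (1 + G v)) (ball l ρ)) ∧
    Chains E Set.univ (ball l ρ) w g

/-- `∑ s_n(K) ^ β / n < ∞` (Macaev class of order `β`; the Macaev ideal for `β = 1`), in terms of the number `n(δ)` of
singular values greater than `δ`: `∫_0^1 δ ^ (β - 1) log (1 + n(δ)) dδ < ∞` -/
def MacaevClass {H : Type} [NormedAddCommGroup H] [InnerProductSpace ℂ H] (K : H →L[ℂ] H) (β : ℝ) :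
    Prop :=
  ∃ (ι : Type) (e f : ι → H) (s : ι → ℝ), Orthonormal ℂ e ∧ Orthonormal ℂ f ∧ (∀ i, 0 ≤ s i) ∧
    (∀ δ : ℝ, 0 < δ → {i | δ < s i}.Finite) ∧
    IntegrableOn (fun δ : ℝ => δ ^ (β - 1) * Real.log (1 + ({i | δ < s i}.ncard : ℝ))) (Set.Ioc 0 1) ∧
    ∀ x, HasSum (fun i => ((s i : ℂ) * ⟪e i, x⟫_ℂ) • f i) (K x)

/-- **P_rateM** (normal operators plus Macaev classes; variant of the done `P_nor5`, LL/Stm9.lean, proof in Pool/Agent/H21/LL/Nor5.lean).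
`n(δ)` = the number of singular values `> δ` (decreasing in `δ`), `ρ = 1/d + ‖c K‖ + 1 ≤ B/d`, `I = {i : c s_i > 1/(2ρ)}`, so the rank is at most
`n (κ d)`, `κ = 1/(2 c B)`. `w d = log (1 + n (κ d)) + log⁺ (1/d)` for `d > 0` and `0` for `d ≤ 0`. Integrability:
`∫_0^1 log (1 + n (κ c' t^p)) t^(1-p) dt`, `p = 1/α`, by the substitution `δ = κ c' t^p` equals `const ∫ log (1 + n(δ)) δ^(2α-2) dδ` over a bounded
interval (`n(δ) ≤ n(1)` for `δ ≥ 1`), and `log⁺ (1/t) t^(1-p)` is integrable as `p < 2`. -/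
def P_rateM : Prop :=
  (∀ (H : Type) [NormedAddCommGroup H] [InnerProductSpace ℂ H] [CompleteSpace H]
    (N K : H →L[ℂ] H) (E : Set ℂ) (α : ℝ), IsStarNormal N → IsClosed E → E.Nonempty →
    spectrum ℂ N ⊆ E → 1 / 2 < α → α ≤ 1 → MacaevClass K (2 * α - 1) → ∀ c : ℝ, 0 < c →
    ∃ (w : ℝ → ℝ) (C : ℝ), (∀ d, 0 ≤ w d) ∧ (∀ d d' : ℝ, 0 < d → d ≤ d' → w d' ≤ w d) ∧
      (∀ c' : ℝ, 0 < c' →
        IntegrableOn (fun t : ℝ => w (c' * t ^ (1 / α)) * t ^ (1 - 1 / α)) (Set.Ioc 0 1)) ∧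
      RateW N ((c : ℂ) • K) E w C) ∧
  ∀ (H : Type) [NormedAddCommGroup H] [InnerProductSpace ℂ H] [CompleteSpace H]
    (K : H →L[ℂ] H) (β : ℝ), 0 < β → MacaevClass K β → IsCompactOperator K

end Pool.Agent.H933.EP
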