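import Mathlib

/-!
# Hölder curves of order greater than one half are thin: statement
-/

set_option autoImplicit false

open MeasureTheory Metric
open scoped Real NNReal ENNReal

namespace Pool.Agent.H933.EP

/-- **P_hthin**. For `0 < δ ≤ 1` let `n = ⌈δ ^ (-1/α)⌉` (so `n ≤ 2 δ ^ (-1/α)`, `(1/n) ^ α ≤ δ`). Every point of the circle `ℝ/ℤ` is at a distance
at most `1/n` from one of the points `i/n`, `i < n`, so the set lies in the union of the `n` discs
`closedBall (φ (i/n)) ((L + 2) δ)`, of total area at most `2 δ ^ (-1/α) π (L + 2) ^ 2 δ ^ 2`. Take `ε = 2 - 1/α`. -/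
def P_hthin : Prop := ∀ (φ : UnitAddCircle → ℂ) (L α : ℝ≥0), (1 / 2 : ℝ) < α → HolderWith L α φ →
  ∃ C ε : ℝ, 0 < ε ∧ ∀ δ : ℝ, 0 < δ → δ ≤ 1 →
    volume {z : ℂ | infDist z (Set.range φ) ≤ δ} ≤ ENNReal.ofReal (C * δ ^ ε)

end Pool.Agent.H933.EP
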